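import Mathlib
import Pool.Agent.H630R2.LA.Nerode

set_option autoImplicit false

/-!
A unary 1-limited automaton with `O(m)` states and a fixed work alphabet which guesses a number
`r < 2 ^ (m * m)` and runs a counter modulo `r + 1` with `m * m` bits.

The cells are divided into segments of `m` cells, and `m` segments form a block, which holds one
value of the counter (lowest bit first).  When the machine visits a cell for the first time it
guesses what to write.  Then it walks to the left, counting the segments, to the same segment of the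
block before, picks a cell there, compares, and returns to the first unvisited cell, counting
modulo `m`.  In the first block it walks to the left end-marker instead.
-/

namespace Pool.Agent.H542.UN

open Relation Pool.Agent.H630R2.LA

/-- The information written in a cell: is it the first cell of a segment (`sh`), of a block (`dl`),
does it belong to the first block (`ini`), the bit of the guessed number `r` (`c`), was the previous
value of the counter zero (`e`), the bit of the previous value (`ov`), the borrow (`bn`), is one of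
the bits of the present value up to this cell different from zero (`nz`). -/
@[ext] structure G where
  sh : Bool
  dl : Bool
  ini : Bool
  c : Bool
  e : Bool
  ov : Bool
  bn : Bool
  nz : Bool
  deriving DecidableEq

/-- The bit of the present value. -/
def G.v (g : G) : Bool := if g.ini then g.c else if g.e then g.c else xor g.ov g.bn

/-- The outgoing borrow. -/
def G.bo (g : G) : Bool := g.bn && !g.ov

/-- The first cell. -/
def First (g : G) : Prop :=
  g.sh = true ∧ g.dl = true ∧ g.ini = true ∧ g.e = false ∧ g.bn = false ∧ g.ov = false ∧ g.nz = g.v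

/-- Consecutive cells of the first block. -/
def IniN (c : ℕ) (h g : G) : Prop :=
  g.sh = decide (c = 0) ∧ g.dl = false ∧ g.ini = true ∧ g.e = false ∧ g.bn = false ∧
    g.ov = false ∧ g.nz = (h.nz || g.v)

/-- Consecutive cells, the second one not in the first block. -/
def Loc (h g : G) : Prop :=
  g.ini = false ∧ g.bn = (if g.dl then true else h.bo) ∧ (g.dl = false → g.e = h.e) ∧
    g.nz = (if g.dl then g.v else (h.nz || g.v)) ∧ (g.dl = true → h.bo = h.e)

/-- Cells at the same place in consecutive blocks. -/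
def Pk (o g : G) : Prop :=
  g.ini = false ∧ g.sh = o.sh ∧ g.dl = o.dl ∧ g.c = o.c ∧ g.ov = o.v

/-- The condition for the last cell. -/
def Acc (h : G) : Prop := h.bo = h.e ∧ h.nz = true

/-- Work symbols. -/
inductive Wk : Type
  | raw : Wk
  | wr (g : G) : Wk
  deriving DecidableEq

/-- Modes. -/
inductive Tg : Type
  | S : Tg
  | F : Tg
  | L (g : G) : Tg
  | C (g : G) : Tg
  | D (g : G) : Tg

/-- The possible guesses. -/
def Gs : Tg → ℕ → G → Prop
  | .S, _, g => First g
  | .D h, c, g => IniN c h g ∨ Loc h g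
  | .C h, c, g => c = 1 ∧ Loc h g
  | _, _, _ => False

/-- Acceptance. -/
def Ac : Tg → ℕ → Prop
  | .D h, _ => Acc h
  | .C h, c => c = 1 ∧ Acc h
  | _, _ => False

/-- The moves. -/
inductive Tr (m : ℕ) : Tg → ℕ → Sym Wk → Tg → ℕ → Wk → Bool → Prop
  | guess (p : Tg) (i : ℕ) (g : G) (h : Gs p i g) :
      Tr m p i (.sym .raw) (.L g) (m - g.sh.toNat) (.wr g) false
  | lgo (g o : G) (i : ℕ) (ho : o.sh = false) :
      Tr m (.L g) i (.sym (.wr o)) (.L g) i (.wr o) false
  | lsh (g o : G) (i : ℕ) (ho : o.sh = true) :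
      Tr m (.L g) (i + 1) (.sym (.wr o)) (.L g) i (.wr o) false
  | pick (g o : G) (h : Pk o g) : Tr m (.L g) 0 (.sym (.wr o)) (.C g) 1 (.wr o) true
  | lend (g : G) (i : ℕ) (h : g.ini = true) : Tr m (.L g) i .lm (.D g) 0 .raw true
  | cgo (g o : G) (c : ℕ) : Tr m (.C g) c (.sym (.wr o)) (.C g) ((c + 1) % m) (.wr o) true
  | dgo (g o : G) (c : ℕ) : Tr m (.D g) c (.sym (.wr o)) (.D g) ((c + 1) % m) (.wr o) true
  | acc (p : Tg) (i : ℕ) (h : Ac p i) : Tr m p i .rm .F 0 .raw true

/-- Encoding of the symbols. -/
def gCode (g : G) : (Bool × Bool × Bool × Bool) × (Bool × Bool × Bool × Bool) :=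
  ((g.sh, g.dl, g.ini, g.c), (g.e, g.ov, g.bn, g.nz))

theorem gCode_inj : Function.Injective gCode := by
  rintro ⟨⟩ ⟨⟩ h
  simp only [gCode, Prod.mk.injEq] at h
  simp only [G.mk.injEq]
  tauto

instance : Finite G := Finite.of_injective _ gCode_inj

theorem card_G : Nat.card G ≤ 256 := by
  have h := Nat.card_le_card_of_injective _ gCode_inj
  simpa [Nat.card_prod] using h

/-- Encoding of the work symbols. -/
def wkCode : Wk → Option G
  | .raw => none
  | .wr g => some g

theorem wkCode_inj : Function.Injective wkCode := by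
  intro x y h
  cases x <;> cases y <;> simp_all [wkCode]

instance : Finite Wk := Finite.of_injective _ wkCode_inj

theorem card_Wk : Nat.card Wk ≤ 257 := by
  have h := Nat.card_le_card_of_injective _ wkCode_inj
  rw [Finite.card_option] at h
  have h2 := card_G
  omega

/-- Encoding of the modes. -/
def tgCode : Tg → Bool ⊕ (Fin 3 × G)
  | .S => .inl false
  | .F => .inl true
  | .L g => .inr (0, g)
  | .C g => .inr (1, g)
  | .D g => .inr (2, g)

theorem tgCode_inj : Function.Injective tgCode := by
  intro x y h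
  cases x <;> cases y <;> simp_all [tgCode]

instance : Finite Tg := Finite.of_injective _ tgCode_inj

theorem card_Tg : Nat.card Tg ≤ 770 := by
  have h := Nat.card_le_card_of_injective _ tgCode_inj
  rw [Nat.card_sum, Nat.card_prod] at h
  have h2 := card_G
  have h3 : Nat.card Bool = 2 := by simp
  have h4 : Nat.card (Fin 3) = 3 := by simp
  rw [h3, h4] at h
  omega

/-- The machine. -/
def witU (m : ℕ) : LimAut Unit where
  Q := Tg × Fin (m + 1)
  W := Wk
  finQ := inferInstance
  finW := inferInstance
  inp := fun _ => Wk.raw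
  inp_inj := by
    intro a b _
    rfl
  δ := fun p σ => {x | Tr m p.1 p.2.val σ x.1.1 x.1.2.val x.2.1 x.2.2}
  q0 := (.S, 0)
  F := {(.F, 0)}

theorem Tr_unique {m : ℕ} {g : Tg} {i : ℕ} {σ : Sym Wk} {g1 g2 : Tg} {i1 i2 : ℕ} {v1 v2 : Wk}
    {d : Bool} (h1 : Tr m g i σ g1 i1 v1 d) (h2 : Tr m g i σ g2 i2 v2 d)
    (h3 : σ = .sym .raw → v1 = v2) : g1 = g2 ∧ i1 = i2 ∧ v1 = v2 := by
  cases h1 <;> cases h2 <;> first
    | exact ⟨rfl, rfl, rfl⟩
    | (have h4 := h3 rfl; cases h4; exact ⟨rfl, rfl, rfl⟩)
    | (exfalso; simp_all)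

open Classical in
theorem numTrans_witU (m : ℕ) : (witU m).numTrans ≤ 794640 * (m + 1) := by
  have hS := finite_Sym Wk
  have hcard : Nat.card (((Tg × Fin (m + 1)) × (Wk ⊕ Sym Wk)) × Bool) ≤ 794640 * (m + 1) := by
    rw [Nat.card_prod, Nat.card_prod, Nat.card_prod, Nat.card_sum, card_Sym]
    have h1 := card_Tg
    have h2 := card_Wk
    have h3 : Nat.card Bool = 2 := by simp
    have h4 : Nat.card (Fin (m + 1)) = m + 1 := by simp
    rw [h3, h4]
    calc Nat.card Tg * (m + 1) * (Nat.card Wk + (Nat.card Wk + 2)) * 2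
        ≤ 770 * (m + 1) * (257 + (257 + 2)) * 2 := by gcongr
      _ = 794640 * (m + 1) := by ring
  refine le_trans ?_ hcard
  unfold LimAut.numTrans
  have hinj : Set.InjOn (fun t : (witU m).Q × Sym (witU m).W × (witU m).Q × (witU m).W × Bool =>
      (((t.1, if t.2.1 = Sym.sym Wk.raw then Sum.inl t.2.2.2.1 else Sum.inr t.2.1), t.2.2.2.2) :
        ((Tg × Fin (m + 1)) × (Wk ⊕ Sym Wk)) × Bool))
      {t | t.2.2 ∈ (witU m).δ t.1 t.2.1} := by
    rintro ⟨p, σ, q, v, d⟩ hx ⟨p', σ', q', v', d'⟩ hx' h
    simp only [Prod.mk.injEq] at h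
    obtain ⟨⟨rfl, h3⟩, rfl⟩ := h
    have h4 : Tr m p.1 p.2.val σ q.1 q.2.val v d := hx
    have h5 : Tr m p.1 p.2.val σ' q'.1 q'.2.val v' d := hx'
    by_cases hσ : σ = Sym.sym Wk.raw
    · by_cases hσ' : σ' = Sym.sym Wk.raw
      · rw [if_pos hσ, if_pos hσ'] at h3
        have hv : v = v' := Sum.inl.inj h3
        subst hσ
        subst hσ'
        obtain ⟨h6, h7, h8⟩ := Tr_unique h4 h5 (fun _ => hv)
        have h10 : q = q' := Prod.ext h6 (Fin.ext h7)
        rw [h10, hv]
      · rw [if_pos hσ, if_neg hσ'] at h3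
        cases h3
    · by_cases hσ' : σ' = Sym.sym Wk.raw
      · rw [if_neg hσ, if_pos hσ'] at h3
        cases h3
      · rw [if_neg hσ, if_neg hσ'] at h3
        have hs : σ = σ' := Sum.inr.inj h3
        subst hs
        obtain ⟨h6, h7, h8⟩ := Tr_unique h4 h5 (fun h => absurd h hσ)
        have h10 : q = q' := Prod.ext h6 (Fin.ext h7)
        rw [h10, h8]
  rw [← hinj.ncard_image, ← Set.ncard_univ]
  exact Set.ncard_le_ncard (Set.subset_univ _) (Set.toFinite _)

theorem size_witU (m : ℕ) : (witU m).size ≤ 4000000 * (m + 1) := by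
  have h1 := numTrans_witU m
  unfold LimAut.size
  have h2 : Nat.card (witU m).Q = Nat.card Tg * (m + 1) := by
    show Nat.card (Tg × Fin (m + 1)) = _
    rw [Nat.card_prod]
    simp
  have h3 : Nat.card (witU m).W ≤ 257 := card_Wk
  have h4 : (witU m).F.ncard = 1 := Set.ncard_singleton _
  have h5 : Nat.card Unit = 1 := by simp
  have h6 := card_Tg
  rw [h2, h4, h5]
  have h7 : Nat.card Tg * (m + 1) ≤ 770 * (m + 1) := Nat.mul_le_mul_right _ h6
  omega

end Pool.Agent.H542.UN
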