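import Mathlib
import Pool.Agent.H542.UN.Mach

set_option autoImplicit false

/-! The computations of the machine. -/

namespace Pool.Agent.H542.UN

open Relation Pool.Agent.H630R2.LA

variable {m : ℕ} {strict : Prop}

/-- States of the machine. -/
abbrev St (m : ℕ) : Type := Tg × Fin (m + 1)

/-- The number of marked cells among the first `t`. -/
def cn (γ : ℕ → G) : ℕ → ℕ
  | 0 => 0
  | t + 1 => cn γ t + (γ t).sh.toNat

/-- The table of the frozen prefix. -/
def TT (strict : Prop) (m : ℕ) (γ : ℕ → G) : ℕ → Set (St m × St m)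
  | 0 => ext strict (witU m) (∅ : Set (St m × St m)) .lm
  | t + 1 => ext strict (witU m) (TT strict m γ t) (.sym (.wr (γ t)))

/-- The walks to the left. -/
def Wlk (m : ℕ) (γ : ℕ → G) (t i : ℕ) (g : G) (p : Tg) (j : ℕ) : Prop :=
  (g.ini = true ∧ cn γ t ≤ i ∧ p = .D g ∧ j = t % m) ∨
    ∃ x, x < t ∧ cn γ t = cn γ (x + 1) + i ∧ Pk (γ x) g ∧ p = .C g ∧ j = (t - x) % m

theorem fz_iff (p r : St m) (σ : Sym Wk) (d : Bool) (hσ : σ ≠ .sym .raw) :
    fz strict (witU m) p σ r d ↔ ∃ b, Tr m p.1 p.2.val σ r.1 r.2.val b d := by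
  constructor
  · rintro ⟨b, h1, _⟩
    exact ⟨b, h1⟩
  · rintro ⟨b, h⟩
    refine ⟨b, h, fun _ => ?_⟩
    generalize p.1 = g at h
    generalize p.2.val = i at h
    generalize r.1 = g' at h
    generalize r.2.val = i' at h
    cases h <;> first
      | rfl
      | exact absurd rfl hσ

theorem ne_raw (o : G) : (Sym.sym (Wk.wr o) : Sym Wk) ≠ .sym .raw := by
  intro h
  cases h

theorem lm_ne_raw : (Sym.lm : Sym Wk) ≠ .sym .raw := by
  intro h
  cases h

/-- in the returning modes there is no move to the left -/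
theorem fz_left {p r : St m} {o : G} (h : fz strict (witU m) p (.sym (.wr o)) r false) :
    ∃ g, p.1 = .L g ∧ r.1 = .L g ∧ p.2.val = r.2.val + o.sh.toNat := by
  obtain ⟨b, h2⟩ := (fz_iff _ _ _ _ (ne_raw o)).1 h
  obtain ⟨g, i⟩ := p
  obtain ⟨g', i'⟩ := r
  dsimp only at h2 ⊢
  generalize hi : i.val = a at h2
  generalize hi' : i'.val = a' at h2
  cases h2 with
  | lgo g o i ho => exact ⟨g, rfl, rfl, by simp [ho]⟩
  | lsh g o i ho => exact ⟨g, rfl, rfl, by simp [ho]⟩

theorem fz_left_of {i i' : Fin (m + 1)} {g o : G} (h : i.val = i'.val + o.sh.toNat) :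
    fz strict (witU m) ((.L g, i) : St m) (.sym (.wr o)) ((.L g, i') : St m) false := by
  refine (fz_iff _ _ _ _ (ne_raw o)).2 ⟨.wr o, ?_⟩
  dsimp only
  cases ho : o.sh with
  | false =>
    rw [ho] at h
    simp at h
    rw [h]
    exact Tr.lgo g o _ ho
  | true =>
    rw [ho] at h
    simp at h
    rw [h]
    exact Tr.lsh g o _ ho

theorem fz_pick {i : Fin (m + 1)} {g o : G} {r : St m} :
    fz strict (witU m) ((.L g, i) : St m) (.sym (.wr o)) r true ↔
      i.val = 0 ∧ Pk o g ∧ r.1 = .C g ∧ r.2.val = 1 := by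
  refine (fz_iff _ _ _ _ (ne_raw o)).trans ?_
  constructor
  · rintro ⟨b, h2⟩
    obtain ⟨g', i'⟩ := r
    dsimp only at h2 ⊢
    generalize hi : i.val = a at h2 ⊢
    generalize hi' : i'.val = a' at h2 ⊢
    cases h2 with
    | pick g o h => exact ⟨rfl, h, rfl, rfl⟩
  · rintro ⟨h1, h2, h3, h4⟩
    obtain ⟨g', i'⟩ := r
    dsimp only at h3 h4 ⊢
    subst h3
    rw [h4, h1]
    exact ⟨_, Tr.pick g o h2⟩

theorem fz_C {i : Fin (m + 1)} {g o : G} {r : St m} :
    fz strict (witU m) ((.C g, i) : St m) (.sym (.wr o)) r true ↔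
      r.1 = .C g ∧ r.2.val = (i.val + 1) % m := by
  refine (fz_iff _ _ _ _ (ne_raw o)).trans ?_
  constructor
  · rintro ⟨b, h2⟩
    obtain ⟨g', i'⟩ := r
    dsimp only at h2 ⊢
    generalize hi : i.val = a at h2 ⊢
    generalize hi' : i'.val = a' at h2 ⊢
    cases h2 with
    | cgo g o h => exact ⟨rfl, rfl⟩
  · rintro ⟨h3, h4⟩
    obtain ⟨g', i'⟩ := r
    dsimp only at h3 h4 ⊢
    subst h3
    rw [h4]
    exact ⟨_, Tr.cgo g o _⟩

theorem fz_D {i : Fin (m + 1)} {g o : G} {r : St m} :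
    fz strict (witU m) ((.D g, i) : St m) (.sym (.wr o)) r true ↔
      r.1 = .D g ∧ r.2.val = (i.val + 1) % m := by
  refine (fz_iff _ _ _ _ (ne_raw o)).trans ?_
  constructor
  · rintro ⟨b, h2⟩
    obtain ⟨g', i'⟩ := r
    dsimp only at h2 ⊢
    generalize hi : i.val = a at h2 ⊢
    generalize hi' : i'.val = a' at h2 ⊢
    cases h2 with
    | dgo g o h => exact ⟨rfl, rfl⟩
  · rintro ⟨h3, h4⟩
    obtain ⟨g', i'⟩ := r
    dsimp only at h3 h4 ⊢
    subst h3
    rw [h4]
    exact ⟨_, Tr.dgo g o _⟩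

theorem fz_lm {i : Fin (m + 1)} {g : G} {r : St m} :
    fz strict (witU m) ((.L g, i) : St m) .lm r true ↔
      g.ini = true ∧ r.1 = .D g ∧ r.2.val = 0 := by
  refine (fz_iff _ _ _ _ lm_ne_raw).trans ?_
  constructor
  · rintro ⟨b, h2⟩
    obtain ⟨g', i'⟩ := r
    dsimp only at h2 ⊢
    generalize hi : i.val = a at h2 ⊢
    generalize hi' : i'.val = a' at h2 ⊢
    cases h2 with
    | lend g i h => exact ⟨h, rfl, rfl⟩
  · rintro ⟨h1, h3, h4⟩
    obtain ⟨g', i'⟩ := r
    dsimp only at h3 h4 ⊢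
    subst h3
    rw [h4]
    exact ⟨_, Tr.lend g _ h1⟩

/-- A returning state. -/
def Ret (p : St m) : Prop := ∃ g, p.1 = .C g ∨ p.1 = .D g

/-- The exit from a frozen cell in a returning state. -/
theorem ext_ret {R : Set (St m × St m)} {o : G} {p r : St m} (hp : Ret p) :
    (p, r) ∈ ext strict (witU m) R (.sym (.wr o)) ↔ fz strict (witU m) p (.sym (.wr o)) r true := by
  constructor
  · rintro ⟨s, h1, h2⟩
    have h1' : ReflTransGen (fun y z => ∃ r, fz strict (witU m) y (.sym (.wr o)) r false ∧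
      (r, z) ∈ R) p s := h1
    rcases ReflTransGen.cases_head h1' with h3 | ⟨z, ⟨t, h4, _⟩, _⟩
    · subst h3
      exact h2
    · exfalso
      obtain ⟨g, h5, _⟩ := fz_left h4
      obtain ⟨g', h6 | h6⟩ := hp <;> rw [h6] at h5 <;> cases h5
  · intro h
    exact ⟨p, ReflTransGen.refl, h⟩

theorem Wlk_ret {γ : ℕ → G} {t i : ℕ} {g : G} {p : St m} (h : Wlk m γ t i g p.1 p.2.val) :
    Ret p := by
  rcases h with ⟨_, _, h, _⟩ | ⟨x, _, _, _, h, _⟩
  · exact ⟨g, Or.inr h⟩
  · exact ⟨g, Or.inl h⟩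

/-- One cell further. -/
def Nx (m : ℕ) (γ : ℕ → G) (t i : ℕ) (g : G) (p : Tg) (j : ℕ) : Prop :=
  (g.ini = true ∧ cn γ t ≤ i ∧ p = .D g ∧ j = (t + 1) % m) ∨
    ∃ x, x < t ∧ cn γ t = cn γ (x + 1) + i ∧ Pk (γ x) g ∧ p = .C g ∧ j = (t + 1 - x) % m

theorem Nx_iff (hm : 2 ≤ m) (γ : ℕ → G) (t i : ℕ) (g o : G) (r : St m) :
    (∃ s : St m, Wlk m γ t i g s.1 s.2.val ∧ fz strict (witU m) s (.sym (.wr o)) r true) ↔
      Nx m γ t i g r.1 r.2.val := by
  constructor
  · rintro ⟨⟨s1, s2⟩, h1, h2⟩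
    rcases h1 with ⟨ha, hb, hc, hd⟩ | ⟨x, hx, ha, hb, hc, hd⟩
    · dsimp only at hc hd
      subst hc
      obtain ⟨h3, h4⟩ := fz_D.1 h2
      left
      refine ⟨ha, hb, h3, ?_⟩
      rw [h4, hd, Nat.mod_add_mod]
    · dsimp only at hc hd
      subst hc
      obtain ⟨h3, h4⟩ := fz_C.1 h2
      right
      refine ⟨x, hx, ha, hb, h3, ?_⟩
      rw [h4, hd, Nat.mod_add_mod]
      congr 1
      omega
  · rintro (⟨ha, hb, hc, hd⟩ | ⟨x, hx, ha, hb, hc, hd⟩)
    · refine ⟨(.D g, ⟨t % m, by have := Nat.mod_lt t (show 0 < m by omega); omega⟩),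
        Or.inl ⟨ha, hb, rfl, rfl⟩, fz_D.2 ⟨hc, ?_⟩⟩
      rw [hd, Nat.mod_add_mod]
    · refine ⟨(.C g, ⟨(t - x) % m, by have := Nat.mod_lt (t - x) (show 0 < m by omega); omega⟩),
        Or.inr ⟨x, hx, ha, hb, rfl, rfl⟩, fz_C.2 ⟨hc, ?_⟩⟩
      rw [hd, Nat.mod_add_mod]
      congr 1
      omega

/-- The table. -/
theorem mem_TT (hm : 2 ≤ m) (γ : ℕ → G) (t : ℕ) : ∀ (i : Fin (m + 1)) (g : G) (r : St m),
    ((((.L g, i) : St m), r) ∈ TT strict m γ t ↔ Wlk m γ t i.val g r.1 r.2.val) := by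
  induction t with
  | zero =>
    intro i g r
    constructor
    · rintro ⟨s, h1, h2⟩
      have h1' : ReflTransGen (fun y z => ∃ r, fz strict (witU m) y .lm r false ∧
        (r, z) ∈ (∅ : Set (St m × St m))) ((.L g, i) : St m) s := h1
      rcases ReflTransGen.cases_head h1' with h3 | ⟨z, ⟨t, _, h4⟩, _⟩
      · subst h3
        obtain ⟨h4, h5, h6⟩ := fz_lm.1 h2
        left
        exact ⟨h4, Nat.zero_le _, h5, by rw [h6, Nat.zero_mod]⟩
      · exact absurd h4 (Set.notMem_empty _)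
    · rintro (⟨h1, _, h2, h3⟩ | ⟨x, hx, _⟩)
      · exact ⟨((.L g, i) : St m), ReflTransGen.refl,
          fz_lm.2 ⟨h1, h2, by rw [h3, Nat.zero_mod]⟩⟩
      · omega
  | succ t ih =>
    intro i g r
    constructor
    · rintro ⟨s, h1, h2⟩
      have h1' : ReflTransGen (fun y z => ∃ r, fz strict (witU m) y (.sym (.wr (γ t))) r false ∧
        (r, z) ∈ TT strict m γ t) ((.L g, i) : St m) s := h1
      rcases ReflTransGen.cases_head h1' with h3 | ⟨z, ⟨q, h4, h5⟩, h6⟩
      · subst h3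
        obtain ⟨h4, h5, h6, h7⟩ := fz_pick.1 h2
        right
        refine ⟨t, Nat.lt_succ_self t, ?_, h5, h6, ?_⟩
        · show cn γ (t + 1) = cn γ (t + 1) + i.val
          omega
        · rw [h7, Nat.add_sub_cancel_left, Nat.mod_eq_of_lt (by omega)]
      · obtain ⟨g', h7, h8, h9⟩ := fz_left h4
        have hg : g' = g := by
          dsimp only at h7
          cases h7
          rfl
        subst hg
        obtain ⟨q1, q2⟩ := q
        dsimp only at h8
        subst h8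
        have h10 := (ih q2 g' z).1 h5
        have hz := Wlk_ret h10
        have hzs : z = s := by
          rcases ReflTransGen.cases_head h6 with h11 | ⟨z', ⟨t', h12, _⟩, _⟩
          · exact h11
          · exfalso
            obtain ⟨g1, h13, _⟩ := fz_left h12
            obtain ⟨g2, h14 | h14⟩ := hz <;> rw [h14] at h13 <;> cases h13
        subst hzs
        have h15 := (Nx_iff hm γ t q2.val g' (γ t) r).1 ⟨z, h10, h2⟩
        dsimp only at h9
        rcases h15 with ⟨ha, hb, hc, hd⟩ | ⟨x, hx, ha, hb, hc, hd⟩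
        · left
          refine ⟨ha, ?_, hc, hd⟩
          show cn γ t + (γ t).sh.toNat ≤ i.val
          omega
        · right
          refine ⟨x, by omega, ?_, hb, hc, hd⟩
          show cn γ t + (γ t).sh.toNat = _
          omega
    · intro h
      have key : (∃ i' : Fin (m + 1), i.val = i'.val + (γ t).sh.toNat ∧
          Nx m γ t i'.val g r.1 r.2.val) ∨ (i.val = 0 ∧ Pk (γ t) g ∧ r.1 = .C g ∧ r.2.val = 1) := by
        rcases h with ⟨ha, hb, hc, hd⟩ | ⟨x, hx, ha, hb, hc, hd⟩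
        · left
          have hb' : cn γ t + (γ t).sh.toNat ≤ i.val := hb
          refine ⟨⟨i.val - (γ t).sh.toNat, by have := i.isLt; omega⟩, ?_, Or.inl ⟨ha, ?_, hc, hd⟩⟩
          · show i.val = i.val - (γ t).sh.toNat + (γ t).sh.toNat
            omega
          · show cn γ t ≤ i.val - (γ t).sh.toNat
            omega
        · have ha' : cn γ t + (γ t).sh.toNat = cn γ (x + 1) + i.val := ha
          by_cases hxt : x = t
          · right
            subst hxt
            have ha2 : cn γ x + (γ x).sh.toNat = cn γ x + (γ x).sh.toNat + i.val := ha'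
            refine ⟨by omega, hb, hc, ?_⟩
            rw [hd, Nat.add_sub_cancel_left, Nat.mod_eq_of_lt (by omega)]
          · left
            have hmono : ∀ a b, a ≤ b → cn γ a ≤ cn γ b := by
              intro a b hab
              induction hab with
              | refl => exact le_rfl
              | step _ ih => exact le_trans ih (Nat.le_add_right _ _)
            have h1 := hmono (x + 1) t (by omega)
            refine ⟨⟨i.val - (γ t).sh.toNat, by have := i.isLt; omega⟩, ?_,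
              Or.inr ⟨x, by omega, ?_, hb, hc, hd⟩⟩
            · show i.val = i.val - (γ t).sh.toNat + (γ t).sh.toNat
              omega
            · show cn γ t = cn γ (x + 1) + (i.val - (γ t).sh.toNat)
              omega
      rcases key with ⟨i', h1, h2⟩ | h1
      · obtain ⟨s, h3, h4⟩ := (Nx_iff (strict := strict) hm γ t i'.val g (γ t) r).2 h2
        exact ⟨s, ReflTransGen.single ⟨((.L g, i') : St m), fz_left_of h1, (ih i' g s).2 h3⟩, h4⟩
      · exact ⟨((.L g, i) : St m), ReflTransGen.refl, fz_pick.2 h1⟩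

/-- The steps of the table automaton. -/
theorem nstep_raw (hm : 2 ≤ m) (γ : ℕ → G) (t : ℕ) (p : St m) (y : Set (St m × St m) × St m) :
    nstep strict (witU m) (.sym .raw) (TT strict m γ t, p) y ↔
      ∃ g, Gs p.1 p.2.val g ∧ y.1 = ext strict (witU m) (TT strict m γ t) (.sym (.wr g)) ∧
        Nx m γ t (m - g.sh.toNat) g y.2.1 y.2.2.val := by
  constructor
  · rintro ⟨q, b, d, hδ, h1, h2, h3⟩
    have hδ' : Tr m p.1 p.2.val (.sym .raw) q.1 q.2.val b d := hδ
    obtain ⟨q1, q2⟩ := q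
    dsimp only at hδ'
    generalize hp1 : p.1 = p1 at hδ'
    generalize hp2 : p.2.val = p2 at hδ'
    generalize hq2 : q2.val = a at hδ'
    cases hδ' with
    | guess p i g h =>
      refine ⟨g, h, h1, ?_⟩
      obtain ⟨s, h4, h5⟩ := h3 rfl
      have h6 := (mem_TT hm γ t q2 g s).1 h4
      rw [h1] at h5
      have h7 := (ext_ret (Wlk_ret h6)).1 h5
      have h8 := (Nx_iff hm γ t q2.val g g y.2).1 ⟨s, h6, h7⟩
      rw [hq2] at h8
      exact h8
  · rintro ⟨g, h1, h2, h3⟩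
    obtain ⟨s, h4, h5⟩ := (Nx_iff (strict := strict) hm γ t (m - g.sh.toNat) g g y.2).2 h3
    refine ⟨((.L g, ⟨m - g.sh.toNat, by omega⟩) : St m), .wr g, false, Tr.guess _ _ g h1, h2,
      fun h => absurd h (by simp), fun _ => ⟨s, (mem_TT hm γ t _ g s).2 h4, ?_⟩⟩
    rw [h2]
    exact (ext_ret (Wlk_ret h4)).2 h5

theorem finX_iff (y : Set (St m × St m) × St m) :
    finX strict (witU m) y ↔ Ac y.2.1 y.2.2.val := by
  constructor
  · rintro ⟨z, ⟨t, b, d, hδ, h1, h2, h3⟩, hz⟩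
    have hδ' : Tr m y.2.1 y.2.2.val .rm t.1 t.2.val b d := hδ
    obtain ⟨R, g, i⟩ := y
    obtain ⟨g', i'⟩ := t
    dsimp only at hδ' ⊢
    generalize hi : i.val = a at hδ' ⊢
    generalize hi' : i'.val = a' at hδ'
    cases hδ' with
    | acc p i h => exact h
  · intro h
    obtain ⟨R, p⟩ := y
    exact ⟨(ext strict (witU m) R .rm, (.F, 0)), ⟨(.F, 0), .raw, true, Tr.acc _ _ h, rfl,
      fun _ => rfl, fun h => absurd h (by simp)⟩, rfl⟩

/-- Chains: descriptions of computations. -/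
def Ch (m : ℕ) (γ : ℕ → G) (σ : ℕ → Tg × ℕ) (n : ℕ) : Prop :=
  σ 0 = (.S, 0) ∧ ∀ t, t < n → Gs (σ t).1 (σ t).2 (γ t) ∧
    Nx m γ t (m - (γ t).sh.toNat) (γ t) (σ (t + 1)).1 (σ (t + 1)).2

theorem cn_congr {γ γ' : ℕ → G} {t : ℕ} (h : ∀ s, s < t → γ s = γ' s) : cn γ t = cn γ' t := by
  induction t with
  | zero => rfl
  | succ t ih =>
    simp only [cn]
    rw [ih (fun s hs => h s (by omega)), h t (by omega)]

theorem TT_congr {γ γ' : ℕ → G} {t : ℕ} (h : ∀ s, s < t → γ s = γ' s) :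
    TT strict m γ t = TT strict m γ' t := by
  induction t with
  | zero => rfl
  | succ t ih =>
    simp only [TT]
    rw [ih (fun s hs => h s (by omega)), h t (by omega)]

theorem Nx_congr {γ γ' : ℕ → G} {t i : ℕ} {g : G} {p : Tg} {j : ℕ}
    (h : ∀ s, s < t → γ s = γ' s) (hN : Nx m γ t i g p j) : Nx m γ' t i g p j := by
  rcases hN with ⟨ha, hb, hc, hd⟩ | ⟨x, hx, ha, hb, hc, hd⟩
  · left
    exact ⟨ha, by rw [← cn_congr h]; exact hb, hc, hd⟩
  · right
    refine ⟨x, hx, ?_, by rw [← h x hx]; exact hb, hc, hd⟩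
    rw [← cn_congr h, ← cn_congr (fun s hs => h s (by omega))]
    exact ha

theorem Ch_lt (hm : 2 ≤ m) {γ : ℕ → G} {σ : ℕ → Tg × ℕ} {n : ℕ} (h : Ch m γ σ n) :
    (σ n).2 < m + 1 := by
  obtain ⟨h1, h2⟩ := h
  rcases n with _ | n
  · rw [h1]
    exact Nat.succ_pos m
  · rcases (h2 n (Nat.lt_succ_self n)).2 with ⟨_, _, _, hd⟩ | ⟨x, _, _, _, _, hd⟩
    · rw [hd]
      exact lt_trans (Nat.mod_lt _ (by omega)) (Nat.lt_succ_self m)
    · rw [hd]
      exact lt_trans (Nat.mod_lt _ (by omega)) (Nat.lt_succ_self m)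

theorem runs_iff (hm : 2 ≤ m) (n : ℕ) (y : Set (St m × St m) × St m) :
    runs strict (witU m) (List.replicate n ()) (x0 strict (witU m)) y ↔
      ∃ γ σ, Ch m γ σ n ∧ y.1 = TT strict m γ n ∧ (y.2.1, y.2.2.val) = σ n := by
  induction n generalizing y with
  | zero =>
    constructor
    · intro h
      have h' : x0 strict (witU m) = y := h
      subst h'
      refine ⟨fun _ => ⟨true, true, true, true, true, true, true, true⟩, fun _ => (.S, 0),
        ⟨rfl, fun t ht => absurd ht (by omega)⟩, rfl, rfl⟩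
    · rintro ⟨γ, σ, ⟨h1, _⟩, h2, h3⟩
      rw [h1] at h3
      show x0 strict (witU m) = y
      obtain ⟨R, q, i⟩ := y
      dsimp only at h2 h3
      simp only [Prod.mk.injEq] at h3
      obtain ⟨rfl, h4⟩ := h3
      have h5 : i = 0 := Fin.ext h4
      rw [h5, h2]
      rfl
  | succ n ih =>
    rw [List.replicate_succ', runs_append]
    constructor
    · rintro ⟨z, h1, z', h2, h3⟩
      have h3' : z' = y := h3
      subst h3'
      obtain ⟨γ, σ, ⟨h4, h5⟩, h6, h7⟩ := (ih z).1 h1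
      obtain ⟨R, p⟩ := z
      dsimp only at h6 h7
      subst h6
      obtain ⟨g, h8, h9, h10⟩ := (nstep_raw hm γ n p z').1 h2
      have hγ : ∀ s, s < n → γ s = Function.update γ n g s := by
        intro s hs
        rw [Function.update_of_ne (by omega)]
      refine ⟨Function.update γ n g, Function.update σ (n + 1) (z'.2.1, z'.2.2.val),
        ⟨?_, ?_⟩, ?_, ?_⟩
      · rw [Function.update_of_ne (by omega)]
        exact h4
      · intro t ht
        by_cases htn : t = n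
        · subst htn
          rw [Function.update_self, Function.update_self, Function.update_of_ne (by omega), ← h7]
          exact ⟨h8, Nx_congr hγ h10⟩
        · rw [Function.update_of_ne htn, Function.update_of_ne (by omega : t ≠ n + 1),
            Function.update_of_ne (by omega : t + 1 ≠ n + 1)]
          exact ⟨(h5 t (by omega)).1, Nx_congr (fun s hs => hγ s (by omega)) (h5 t (by omega)).2⟩
      · rw [h9]
        simp only [TT]
        rw [Function.update_self, TT_congr hγ]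
      · rw [Function.update_self]
    · rintro ⟨γ, σ, ⟨h1, h2⟩, h3, h4⟩
      have hlt : (σ n).2 < m + 1 := Ch_lt hm ⟨h1, fun t ht => h2 t (by omega)⟩
      refine ⟨(TT strict m γ n, ((σ n).1, ⟨(σ n).2, hlt⟩)), (ih _).2
        ⟨γ, σ, ⟨h1, fun t ht => h2 t (by omega)⟩, rfl, rfl⟩, y, ?_, rfl⟩
      obtain ⟨h5, h6⟩ := h2 n (by omega)
      refine (nstep_raw hm γ n _ y).2 ⟨γ n, h5, h3, ?_⟩
      have h7 : y.2.1 = (σ (n + 1)).1 := by rw [← h4]
      have h8 : y.2.2.val = (σ (n + 1)).2 := by rw [← h4]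
      rw [h7, h8]
      exact h6

theorem mem_witU (hm : 2 ≤ m) (n : ℕ) :
    List.replicate n () ∈ (witU m).language strict ↔
      ∃ γ σ, Ch m γ σ n ∧ Ac (σ n).1 (σ n).2 := by
  rw [mem_language_runs]
  constructor
  · rintro ⟨y, h1, h2⟩
    obtain ⟨γ, σ, h3, h4, h5⟩ := (runs_iff hm n y).1 h1
    rw [finX_iff] at h2
    refine ⟨γ, σ, h3, ?_⟩
    rw [← h5]
    exact h2
  · rintro ⟨γ, σ, h1, h2⟩
    have hlt : (σ n).2 < m + 1 := Ch_lt hm h1
    refine ⟨(TT strict m γ n, ((σ n).1, ⟨(σ n).2, hlt⟩)), (runs_iff hm n _).2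
      ⟨γ, σ, h1, rfl, rfl⟩, (finX_iff _).2 h2⟩

end Pool.Agent.H542.UN
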