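import Mathlib
import Pool.Agent.H542.UN.Sem

set_option autoImplicit false

/-! The counter. -/

namespace Pool.Agent.H542.UN

open Relation Pool.Agent.H630R2.LA

/-- The value of the counter in the block `b`. -/
def val (r b : ℕ) : ℕ := r - b % (r + 1)

theorem val_zero (r : ℕ) : val r 0 = r := by
  simp [val]

theorem val_le (r b : ℕ) : val r b ≤ r := Nat.sub_le _ _

theorem mod_succ_cases (r b : ℕ) :
    (b % (r + 1) = r ∧ (b + 1) % (r + 1) = 0) ∨
      (b % (r + 1) < r ∧ (b + 1) % (r + 1) = b % (r + 1) + 1) := by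
  have h1 : b % (r + 1) < r + 1 := Nat.mod_lt _ (Nat.succ_pos r)
  rcases Nat.lt_or_ge (b % (r + 1)) r with h | h
  · right
    refine ⟨h, ?_⟩
    rw [← Nat.mod_add_mod, Nat.mod_eq_of_lt (by omega)]
  · left
    have h2 : b % (r + 1) = r := by omega
    refine ⟨h2, ?_⟩
    rw [← Nat.mod_add_mod, h2, Nat.mod_self]

theorem val_succ (r b : ℕ) : val r (b + 1) = if val r b = 0 then r else val r b - 1 := by
  unfold val
  rcases mod_succ_cases r b with ⟨h1, h2⟩ | ⟨h1, h2⟩
  · rw [h1, h2, if_pos (Nat.sub_self r), Nat.sub_zero]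
  · rw [h2, if_neg (by omega)]
    omega

theorem val_ne_zero_iff (r b : ℕ) : val r b ≠ 0 ↔ ¬ (r + 1) ∣ (b + 1) := by
  rw [Nat.dvd_iff_mod_eq_zero]
  unfold val
  rcases mod_succ_cases r b with ⟨h1, h2⟩ | ⟨h1, h2⟩
  · rw [h1, h2]
    simp
  · rw [h2]
    constructor
    · intro _
      omega
    · intro _
      omega

theorem testBit_pred {u : ℕ} (hu : u ≠ 0) (j : ℕ) :
    (u - 1).testBit j = xor (u.testBit j) (decide (u % 2 ^ j = 0)) := by
  have h2 : 0 < 2 ^ j := Nat.two_pow_pos j
  rw [Nat.testBit_eq_decide_div_mod_eq, Nat.testBit_eq_decide_div_mod_eq]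
  have h3 := Nat.div_add_mod u (2 ^ j)
  have h4 := Nat.mod_lt u h2
  generalize hq : u / 2 ^ j = q at h3
  generalize hs : u % 2 ^ j = s at h3 h4
  generalize 2 ^ j = P at h2 h3 h4
  rcases Nat.eq_zero_or_pos s with h5 | h5
  · subst h5
    have hq0 : 0 < q := by
      rcases Nat.eq_zero_or_pos q with h6 | h6
      · subst h6
        simp at h3
        omega
      · exact h6
    have h6 : (u - 1) / P = q - 1 := by
      have h7 : u - 1 = (P - 1) + P * (q - 1) := by
        have h8 : P * q = P * (q - 1) + P := by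
          obtain ⟨k, rfl⟩ : ∃ k, q = k + 1 := ⟨q - 1, by omega⟩
          simp [Nat.mul_add]
        omega
      rw [h7, Nat.add_mul_div_left _ _ h2, Nat.div_eq_of_lt (by omega)]
      omega
    rw [h6]
    simp only [decide_true]
    rcases Nat.mod_two_eq_zero_or_one q with h8 | h8
    · have h9 : (q - 1) % 2 = 1 := by omega
      rw [h8, h9]
      rfl
    · have h9 : (q - 1) % 2 = 0 := by omega
      rw [h8, h9]
      rfl
  · have h6 : (u - 1) / P = q := by
      have h7 : u - 1 = (s - 1) + P * q := by omega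
      rw [h7, Nat.add_mul_div_left _ _ h2, Nat.div_eq_of_lt (by omega)]
      omega
    rw [h6]
    have h9 : ¬ s = 0 := by omega
    simp [h9]

theorem mod_pow_succ_eq (u j : ℕ) :
    decide (u % 2 ^ (j + 1) = 0) = (decide (u % 2 ^ j = 0) && !u.testBit j) := by
  rw [Nat.mod_pow_succ, Nat.testBit_eq_decide_div_mod_eq]
  have h2 : 0 < 2 ^ j := Nat.two_pow_pos j
  have h5 : u / 2 ^ j % 2 < 2 := Nat.mod_lt _ (by norm_num)
  generalize u / 2 ^ j % 2 = a at *
  generalize u % 2 ^ j = s at *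
  generalize 2 ^ j = P at *
  have h6 : a = 0 ∨ a = 1 := by omega
  rcases h6 with rfl | rfl
  · simp
  · simp
    intro _
    omega

theorem mod_pow_succ_ne (u j : ℕ) :
    decide (u % 2 ^ (j + 1) ≠ 0) = (decide (u % 2 ^ j ≠ 0) || u.testBit j) := by
  have h := mod_pow_succ_eq u j
  by_cases h1 : u % 2 ^ (j + 1) = 0 <;> by_cases h2 : u % 2 ^ j = 0 <;>
    cases h3 : u.testBit j <;> simp_all

/-- The content of the cell `j` of the block `b`. -/
def gx (m r b j : ℕ) : G where
  sh := decide (j % m = 0)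
  dl := decide (j = 0)
  ini := decide (b = 0)
  c := r.testBit j
  e := decide (b ≠ 0 ∧ val r (b - 1) = 0)
  ov := decide (b ≠ 0) && (val r (b - 1)).testBit j
  bn := decide (b ≠ 0 ∧ val r (b - 1) % 2 ^ j = 0)
  nz := decide (val r b % 2 ^ (j + 1) ≠ 0)

theorem v_gx (m r b j : ℕ) : (gx m r b j).v = (val r b).testBit j := by
  rcases b with _ | b
  · simp [G.v, gx, val_zero]
  · have h1 := val_succ r b
    by_cases h2 : val r b = 0
    · rw [if_pos h2] at h1
      simp [G.v, gx, h2, h1]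
    · rw [if_neg h2] at h1
      rw [h1, testBit_pred h2]
      simp [G.v, gx, h2]

theorem bo_gx (m r b j : ℕ) :
    (gx m r b j).bo = decide (b ≠ 0 ∧ val r (b - 1) % 2 ^ (j + 1) = 0) := by
  rcases b with _ | b
  · simp [G.bo, gx]
  · have h := mod_pow_succ_eq (val r b) j
    simp only [G.bo, gx, Nat.add_sub_cancel]
    simp only [ne_eq, Nat.add_eq_zero_iff, one_ne_zero, and_false, not_false_eq_true, true_and,
      decide_true, Bool.true_and]
    exact h.symm

/-- End of a block. -/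
theorem end_gx (m r b N : ℕ) (hr : r < 2 ^ N) (hN : 0 < N) :
    (gx m r b (N - 1)).bo = (gx m r b (N - 1)).e := by
  rw [bo_gx, Nat.sub_add_cancel hN, Nat.mod_eq_of_lt (lt_of_le_of_lt (val_le _ _) hr)]
  rfl

/-- Consecutive cells in the first block. -/
theorem ini_gx (m r j : ℕ) : IniN ((j + 1) % m) (gx m r 0 j) (gx m r 0 (j + 1)) := by
  refine ⟨rfl, by simp [gx], by simp [gx], by simp [gx], by simp [gx], by simp [gx], ?_⟩
  rw [v_gx]
  exact mod_pow_succ_ne _ _

theorem first_gx (m r : ℕ) : First (gx m r 0 0) := by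
  refine ⟨by simp [gx], by simp [gx], by simp [gx], by simp [gx], by simp [gx], by simp [gx], ?_⟩
  rw [v_gx]
  have h := mod_pow_succ_ne (val r 0) 0
  simp only [pow_zero, Nat.mod_one] at h
  simpa [gx] using h

/-- Consecutive cells in a block. -/
theorem loc_gx (m r b j : ℕ) : Loc (gx m r (b + 1) j) (gx m r (b + 1) (j + 1)) := by
  refine ⟨by simp [gx], ?_, fun _ => rfl, ?_, fun h => by simp [gx] at h⟩
  · rw [bo_gx]
    simp [gx]
  · rw [v_gx]
    have h := mod_pow_succ_ne (val r (b + 1)) (j + 1)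
    have h2 : (gx m r (b + 1) (j + 1)).dl = false := by simp [gx]
    rw [h2]
    exact h

/-- Consecutive cells in different blocks. -/
theorem locd_gx (m r b N : ℕ) (hr : r < 2 ^ N) (hN : 0 < N) :
    Loc (gx m r b (N - 1)) (gx m r (b + 1) 0) := by
  refine ⟨by simp [gx], by simp [gx, Nat.mod_one], fun h => by simp [gx] at h, ?_,
    fun _ => end_gx m r b N hr hN⟩
  rw [v_gx]
  have h := mod_pow_succ_ne (val r (b + 1)) 0
  have h2 : (gx m r (b + 1) 0).dl = true := by simp [gx]
  rw [h2]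
  simp only [pow_zero, Nat.mod_one] at h
  simpa [gx] using h

theorem pk_gx (m r b j : ℕ) : Pk (gx m r b j) (gx m r (b + 1) j) := by
  refine ⟨by simp [gx], rfl, rfl, rfl, ?_⟩
  rw [v_gx]
  simp [gx]

end Pool.Agent.H542.UN
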