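import Mathlib
import Pool.Agent.H542.UN.Count

set_option autoImplicit false

/-! The computations on words whose length is a multiple of `m * m`. -/

namespace Pool.Agent.H542.UN

open Relation Pool.Agent.H630R2.LA

variable {m : ℕ}

theorem cn_of (hm : 0 < m) (γ : ℕ → G) (t : ℕ)
    (h : ∀ s, s < t + 1 → (γ s).sh = decide (s % m = 0)) : cn γ (t + 1) = t / m + 1 := by
  induction t with
  | zero =>
    simp only [cn]
    rw [h 0 (by omega)]
    simp
  | succ t ih =>
    have h1 := ih (fun s hs => h s (by omega))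
    show cn γ (t + 1) + (γ (t + 1)).sh.toNat = _
    rw [h1, h (t + 1) (by omega), Nat.succ_div]
    by_cases h2 : m ∣ t + 1
    · rw [if_pos h2, decide_eq_true (Nat.mod_eq_zero_of_dvd h2)]
      rfl
    · rw [if_neg h2, decide_eq_false (fun h3 => h2 (Nat.dvd_of_mod_eq_zero h3))]
      rfl

/-- The constraints on the contents of the cells. -/
structure Con (m : ℕ) (γ : ℕ → G) (n : ℕ) : Prop where
  first : First (γ 0)
  ini : ∀ j, j + 1 < m * m → j + 1 < n → IniN ((j + 1) % m) (γ j) (γ (j + 1))
  pk : ∀ t, t + m * m < n → Pk (γ t) (γ (t + m * m))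
  loc : ∀ t, m * m ≤ t + 1 → t + 1 < n → Loc (γ t) (γ (t + 1))
  last : ∀ t, t + 1 = n → Acc (γ t)

/-- What is known about the cell `t`. -/
def Kn (m : ℕ) (γ : ℕ → G) (σ : ℕ → Tg × ℕ) (t : ℕ) : Prop :=
  (γ t).sh = decide (t % m = 0) ∧
    ((t < m * m ∧ (t = 0 → First (γ 0)) ∧ (∀ s, t = s + 1 → IniN (t % m) (γ s) (γ t)) ∧
        (σ (t + 1)).1 = .D (γ t) ∧ (σ (t + 1)).2 = (t + 1) % m) ∨
      (m * m ≤ t ∧ Pk (γ (t - m * m)) (γ t) ∧ (∀ s, t = s + 1 → Loc (γ s) (γ t)) ∧
        (σ (t + 1)).1 = .C (γ t)))

theorem kn_all (hm : 2 ≤ m) {γ : ℕ → G} {σ : ℕ → Tg × ℕ} {n : ℕ} (h : Ch m γ σ n)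
    (hac : Ac (σ n).1 (σ n).2) (t : ℕ) : t < n → Kn m γ σ t := by
  have hE : ∀ t g, t ≤ n → (σ t).1 = .C g → (σ t).2 = 1 := by
    intro t g ht h1
    rcases Nat.lt_or_ge t n with h2 | h2
    · have h3 := (h.2 t h2).1
      rw [h1] at h3
      exact h3.1
    · have h3 : t = n := by omega
      subst h3
      rw [h1] at hac
      exact hac.1
  induction t using Nat.strong_induction_on with
  | _ t ih =>
    intro ht
    obtain ⟨hG, hN⟩ := h.2 t ht
    have hsh : ∀ s, s < t → (γ s).sh = decide (s % m = 0) := fun s hs => (ih s hs (by omega)).1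
    have htn1 : (γ t).sh.toNat ≤ 1 := Bool.toNat_le _
    have hX : (γ t).ini = false → (γ t).sh = decide (t % m = 0) ∧ m * m ≤ t ∧
        Pk (γ (t - m * m)) (γ t) ∧ (σ (t + 1)).1 = .C (γ t) := by
      intro hini
      rcases hN with ⟨ha, _⟩ | ⟨x, hx, ha, hb, hc, hd⟩
      · rw [hini] at ha
        cases ha
      · have h1 := hE (t + 1) _ (by omega) hc
        rw [hd] at h1
        have h2 : (t - x) % m = 0 := by
          have h3 : t + 1 - x = (t - x) + 1 := by omega
          rw [h3] at h1
          have h4 := Nat.div_add_mod (t - x + 1) m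
          rw [h1] at h4
          have h5 : t - x = m * ((t - x + 1) / m) := by omega
          rw [h5]
          exact Nat.mul_mod_right _ _
        have h3 : t % m = x % m := by
          have h4 : t = x + (t - x) := by omega
          conv_lhs => rw [h4]
          rw [Nat.add_mod, h2, Nat.add_zero, Nat.mod_mod]
        have h4 : (γ t).sh = decide (t % m = 0) := by
          rw [hb.2.1, hsh x hx, h3]
        have hsh' : ∀ s, s < t + 1 → (γ s).sh = decide (s % m = 0) := by
          intro s hs
          by_cases hst : s = t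
          · rw [hst]
            exact h4
          · exact hsh s (by omega)
        have h5 := cn_of (by omega) γ t hsh'
        have h6 := cn_of (by omega) γ x (fun s hs => hsh' s (by omega))
        have h7 : cn γ (t + 1) = cn γ t + (γ t).sh.toNat := rfl
        have h8 : t / m = x / m + m := by omega
        have h9 := Nat.div_add_mod t m
        have h10 := Nat.div_add_mod x m
        rw [h8, Nat.mul_add] at h9
        have h11 : t = x + m * m := by omega
        refine ⟨h4, by omega, ?_, hc⟩
        rw [show t - m * m = x by omega]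
        exact hb
    have hY : (γ t).ini = true → (γ t).sh = decide (t % m = 0) → t < m * m ∧
        (σ (t + 1)).1 = .D (γ t) ∧ (σ (t + 1)).2 = (t + 1) % m := by
      intro hini h4
      rcases hN with ⟨ha, hb, hc, hd⟩ | ⟨x, hx, ha, hb, hc, hd⟩
      · have hsh' : ∀ s, s < t + 1 → (γ s).sh = decide (s % m = 0) := by
          intro s hs
          by_cases hst : s = t
          · rw [hst]
            exact h4
          · exact hsh s (by omega)
        have h5 := cn_of (by omega) γ t hsh'
        have h7 : cn γ (t + 1) = cn γ t + (γ t).sh.toNat := rfl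
        have h8 : t / m < m := by omega
        exact ⟨(Nat.div_lt_iff_lt_mul (by omega)).1 h8, hc, hd⟩
      · have := hb.1
        rw [hini] at this
        cases this
    rcases t with _ | s
    · rw [h.1] at hG
      have hF : First (γ 0) := hG
      have h1 : (γ 0).sh = decide (0 % m = 0) := by
        rw [hF.1]
        simp
      obtain ⟨h2, h3, h4⟩ := hY hF.2.2.1 h1
      exact ⟨h1, Or.inl ⟨h2, fun _ => hF, fun s hs => absurd hs (by omega), h3, h4⟩⟩
    · have hprev := ih s (by omega) (by omega)
      have hL : Loc (γ s) (γ (s + 1)) → Kn m γ σ (s + 1) := by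
        intro hL
        obtain ⟨h1, h2, h3, h4⟩ := hX hL.1
        refine ⟨h1, Or.inr ⟨h2, h3, ?_, h4⟩⟩
        intro s' hs'
        have : s = s' := by omega
        rw [← this]
        exact hL
      rcases hprev.2 with ⟨h1, _, _, h2, h3⟩ | ⟨h1, _, _, h2⟩
      · rw [h2, h3] at hG
        rcases hG with hI | hG
        · obtain ⟨h4, h5, h6⟩ := hY hI.2.2.1 hI.1
          refine ⟨hI.1, Or.inl ⟨h4, fun h => absurd h (by omega), ?_, h5, h6⟩⟩
          intro s' hs'
          have : s = s' := by omega
          rw [← this]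
          exact hI
        · exact hL hG
      · rw [h2] at hG
        exact hL hG.2

theorem con_of (hm : 2 ≤ m) {γ : ℕ → G} {σ : ℕ → Tg × ℕ} {n : ℕ} (h : Ch m γ σ n)
    (hac : Ac (σ n).1 (σ n).2) : 0 < n ∧ Con m γ n := by
  have hn : 0 < n := by
    rcases Nat.eq_zero_or_pos n with hn | hn
    · subst hn
      rw [h.1] at hac
      exact absurd hac (fun h => h)
    · exact hn
  have hk := kn_all hm h hac
  have hmm : 0 < m * m := Nat.mul_pos (by omega) (by omega)
  refine ⟨hn, ⟨?_, ?_, ?_, ?_, ?_⟩⟩
  · rcases (hk 0 hn).2 with ⟨_, h1, _⟩ | ⟨h1, _⟩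
    · exact h1 rfl
    · omega
  · intro j h1 h2
    rcases (hk (j + 1) h2).2 with ⟨_, _, h3, _⟩ | ⟨h3, _⟩
    · exact h3 j rfl
    · omega
  · intro t h1
    rcases (hk (t + m * m) h1).2 with ⟨h3, _⟩ | ⟨_, h3, _⟩
    · omega
    · rw [Nat.add_sub_cancel] at h3
      exact h3
  · intro t h1 h2
    rcases (hk (t + 1) h2).2 with ⟨h3, _⟩ | ⟨_, _, h3, _⟩
    · omega
    · exact h3 t rfl
  · intro t h1
    rcases (hk t (by omega)).2 with ⟨_, _, _, h2, h3⟩ | ⟨_, _, _, h2⟩
    · rw [h1] at h2
      rw [h2] at hac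
      exact hac
    · rw [h1] at h2
      rw [h2] at hac
      exact hac.2

theorem ini_unique {c : ℕ} {h g g' : G} (h1 : IniN c h g) (h2 : IniN c h g') (hc : g.c = g'.c) :
    g = g' := by
  obtain ⟨a1, a2, a3, a4, a5, a6, a7⟩ := h1
  obtain ⟨b1, b2, b3, b4, b5, b6, b7⟩ := h2
  have hv : g.v = g'.v := by
    unfold G.v
    rw [a3, b3, hc, if_pos rfl, if_pos rfl]
  refine G.ext ?_ ?_ ?_ hc ?_ ?_ ?_ ?_
  · rw [a1, b1]
  · rw [a2, b2]
  · rw [a3, b3]
  · rw [a4, b4]
  · rw [a6, b6]
  · rw [a5, b5]
  · rw [a7, b7, hv]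

theorem first_unique {g g' : G} (h1 : First g) (h2 : First g') (hc : g.c = g'.c) : g = g' := by
  obtain ⟨a1, a2, a3, a4, a5, a6, a7⟩ := h1
  obtain ⟨b1, b2, b3, b4, b5, b6, b7⟩ := h2
  have hv : g.v = g'.v := by
    unfold G.v
    rw [a3, b3, hc, if_pos rfl, if_pos rfl]
  refine G.ext ?_ ?_ ?_ hc ?_ ?_ ?_ ?_
  · rw [a1, b1]
  · rw [a2, b2]
  · rw [a3, b3]
  · rw [a4, b4]
  · rw [a6, b6]
  · rw [a5, b5]
  · rw [a7, b7, hv]

/-- equality up to two components -/
def Alm (g g' : G) : Prop :=
  g.sh = g'.sh ∧ g.dl = g'.dl ∧ g.ini = g'.ini ∧ g.c = g'.c ∧ g.ov = g'.ov ∧ g.bn = g'.bn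

theorem alm_of {h g g' h' o : G} (h1 : Loc h g) (h2 : Pk o g) (h3 : Loc h' g') (h4 : Pk o g')
    (hbo : h.bo = h'.bo) : Alm g g' := by
  obtain ⟨a1, a2, a3, a4, a5⟩ := h1
  obtain ⟨b1, b2, b3, b4, b5⟩ := h2
  obtain ⟨c1, c2, c3, c4, c5⟩ := h3
  obtain ⟨d1, d2, d3, d4, d5⟩ := h4
  have hdl : g.dl = g'.dl := by rw [b3, d3]
  refine ⟨by rw [b2, d2], hdl, by rw [b1, d1], by rw [b4, d4], by rw [b5, d5], ?_⟩
  rw [a2, c2, hdl, hbo]

theorem loc_unique {h g g' : G} (h1 : Loc h g) (h3 : Loc h g') (h2 : Alm g g')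
    (he : g.e = g'.e) : g = g' := by
  obtain ⟨a1, a2, a3, a4, a5⟩ := h1
  obtain ⟨b1, b2, b3, b4, b5, b6⟩ := h2
  obtain ⟨c1, c2, c3, c4, c5⟩ := h3
  have hv : g.v = g'.v := by
    unfold G.v
    rw [b3, b4, he, b5, b6]
  refine G.ext b1 b2 b3 b4 he b5 b6 ?_
  rw [a4, c4, b2, hv]

theorem blocks (hm : 2 ≤ m) {γ : ℕ → G} {T : ℕ} (h : Con m γ (m * m * T)) :
    ∃ r, r < 2 ^ (m * m) ∧ ∀ b, b < T → ∀ j, j < m * m → γ (m * m * b + j) = gx m r b j := by
  have hN : 0 < m * m := Nat.mul_pos (by omega) (by omega)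
  generalize hNe : m * m = N at h hN ⊢
  refine ⟨Nat.ofBits (fun j : Fin N => (γ j.val).c), Nat.ofBits_lt_two_pow _, ?_⟩
  generalize hr : Nat.ofBits (fun j : Fin N => (γ j.val).c) = r
  have hc : ∀ j, j < N → r.testBit j = (γ j).c := by
    intro j hj
    rw [← hr, Nat.testBit_ofBits_lt _ _ hj]
  have hrN : r < 2 ^ N := by
    rw [← hr]
    exact Nat.ofBits_lt_two_pow _
  intro b
  induction b with
  | zero =>
    intro hT j
    have hNT : N ≤ N * T := Nat.le_mul_of_pos_right N hT
    rw [Nat.mul_zero, Nat.zero_add]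
    induction j with
    | zero =>
      intro hj
      exact first_unique h.first (first_gx m r) (hc 0 hj).symm
    | succ j ihj =>
      intro hj
      have h1 := h.ini j (by omega) (by omega)
      have h2 := ini_gx m r j
      rw [ihj (by omega)] at h1
      exact ini_unique h1 h2 (hc (j + 1) hj).symm
  | succ b ihb =>
    intro hT
    have ihb' := ihb (by omega)
    have hNT : N * (b + 1) + N ≤ N * T := by
      calc N * (b + 1) + N = N * (b + 2) := by ring
        _ ≤ N * T := Nat.mul_le_mul_left N hT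
    have hprev : ∀ j, j < N → Pk (gx m r b j) (γ (N * (b + 1) + j)) := by
      intro j hj
      have h1 := h.pk (N * b + j) (by
        rw [hNe]
        have : N * (b + 1) = N * b + N := by ring
        omega)
      rw [ihb' j hj, hNe] at h1
      have h2 : N * b + j + N = N * (b + 1) + j := by ring
      rw [h2] at h1
      exact h1
    have hloc0 : Loc (gx m r b (N - 1)) (γ (N * (b + 1) + 0)) := by
      have h1 := h.loc (N * b + (N - 1)) (by
        rw [hNe]
        have : 0 ≤ N * b := Nat.zero_le _
        omega) (by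
        have : N * (b + 1) = N * b + N := by ring
        omega)
      rw [ihb' (N - 1) (by omega)] at h1
      have h2 : N * b + (N - 1) + 1 = N * (b + 1) + 0 := by
        have : N * (b + 1) = N * b + N := by ring
        omega
      rw [h2] at h1
      exact h1
    have hlocs : ∀ j, j + 1 < N → Loc (γ (N * (b + 1) + j)) (γ (N * (b + 1) + (j + 1))) := by
      intro j hj
      have h1 : N ≤ N * (b + 1) := Nat.le_mul_of_pos_right N (Nat.succ_pos b)
      exact h.loc (N * (b + 1) + j) (by rw [hNe]; omega) (by omega)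
    -- all components but two
    have hA : ∀ j, j < N → Alm (γ (N * (b + 1) + j)) (gx m r (b + 1) j) ∧
        (γ (N * (b + 1) + j)).e = (γ (N * (b + 1) + 0)).e := by
      intro j
      induction j with
      | zero =>
        intro hj
        exact ⟨alm_of hloc0 (hprev 0 hj) (locd_gx m r b N hrN hN) (pk_gx m r b 0) rfl, rfl⟩
      | succ j ihj =>
        intro hj
        obtain ⟨h1, h2⟩ := ihj (by omega)
        have h3 := hlocs j hj
        have hbo : (γ (N * (b + 1) + j)).bo = (gx m r (b + 1) j).bo := by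
          unfold G.bo
          rw [h1.2.2.2.2.1, h1.2.2.2.2.2]
        have h4 := alm_of h3 (hprev (j + 1) hj) (loc_gx m r b j) (pk_gx m r b (j + 1)) hbo
        refine ⟨h4, ?_⟩
        rw [← h2]
        refine h3.2.2.1 ?_
        rw [h4.2.1]
        simp [gx]
    have he : (γ (N * (b + 1) + 0)).e = (gx m r (b + 1) 0).e := by
      obtain ⟨h1, h2⟩ := hA (N - 1) (by omega)
      have hbo : (γ (N * (b + 1) + (N - 1))).bo = (gx m r (b + 1) (N - 1)).bo := by
        unfold G.bo
        rw [h1.2.2.2.2.1, h1.2.2.2.2.2]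
      have h3 : (γ (N * (b + 1) + (N - 1))).bo = (γ (N * (b + 1) + (N - 1))).e := by
        rcases Nat.lt_or_ge (N * (b + 1) + (N - 1) + 1) (N * T) with h4 | h4
        · have h5 : N ≤ N * (b + 1) := Nat.le_mul_of_pos_right N (Nat.succ_pos b)
          have h6 := h.loc (N * (b + 1) + (N - 1)) (by rw [hNe]; omega) h4
          refine h6.2.2.2.2 ?_
          have h7 := h.pk (N * (b + 1) + 0) (by rw [hNe]; omega)
          rw [hNe] at h7
          have h8 : N * (b + 1) + (N - 1) + 1 = N * (b + 1) + 0 + N := by omega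
          rw [h8, h7.2.2.1, (hA 0 hN).1.2.1]
          simp [gx]
        · exact (h.last (N * (b + 1) + (N - 1)) (by omega)).1
      rw [← h2, ← h3, hbo, end_gx m r (b + 1) N hrN hN]
      rfl
    intro j
    induction j with
    | zero =>
      intro hj
      exact loc_unique hloc0 (locd_gx m r b N hrN hN) (hA 0 hj).1 he
    | succ j ihj =>
      intro hj
      have h3 := hlocs j hj
      rw [ihj (by omega)] at h3
      refine loc_unique h3 (loc_gx m r b j) (hA (j + 1) hj).1 ?_
      rw [(hA (j + 1) hj).2, he]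
      rfl

/-- The contents of all cells. -/
def GX (m r t : ℕ) : G := gx m r (t / (m * m)) (t % (m * m))

theorem GX_add (hm : 0 < m) (r b j : ℕ) (hj : j < m * m) :
    GX m r (m * m * b + j) = gx m r b j := by
  unfold GX
  have hN : 0 < m * m := Nat.mul_pos hm hm
  rw [Nat.mul_add_div hN, Nat.div_eq_of_lt hj, Nat.add_zero, Nat.mul_add_mod, Nat.mod_eq_of_lt hj]

theorem GX_sh (m r t : ℕ) : (GX m r t).sh = decide (t % m = 0) := by
  show decide (t % (m * m) % m = 0) = _
  rw [Nat.mod_mul_right_mod]

theorem chain_of (hm : 2 ≤ m) {r T : ℕ} (hr : r < 2 ^ (m * m)) (hT : 0 < T)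
    (hd : ¬ (r + 1) ∣ T) : ∃ γ σ, Ch m γ σ (m * m * T) ∧ Ac (σ (m * m * T)).1 (σ (m * m * T)).2 := by
  have hN : 0 < m * m := Nat.mul_pos (by omega) (by omega)
  have hm0 : 0 < m := by omega
  have h1N : 1 < m * m := by nlinarith
  refine ⟨GX m r, fun t => if t = 0 then (.S, 0) else if t ≤ m * m then
    (.D (GX m r (t - 1)), t % m) else (.C (GX m r (t - 1)), 1), ⟨rfl, ?_⟩, ?_⟩
  · intro t ht
    have hdm := Nat.div_add_mod t (m * m)
    have hj := Nat.mod_lt t hN
    have hsucc : (fun t => if t = 0 then ((.S, 0) : Tg × ℕ) else if t ≤ m * m then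
      (.D (GX m r (t - 1)), t % m) else (.C (GX m r (t - 1)), 1)) (t + 1) =
      if t < m * m then (.D (GX m r t), (t + 1) % m) else (.C (GX m r t), 1) := by
      dsimp only
      rw [if_neg (by omega), Nat.add_sub_cancel]
      by_cases h1 : t < m * m
      · rw [if_pos (by omega), if_pos h1]
      · rw [if_neg (by omega), if_neg h1]
    rw [hsucc]
    dsimp only
    have hcn := cn_of hm0 (GX m r) t (fun s _ => GX_sh m r s)
    have hcn' : cn (GX m r) (t + 1) = cn (GX m r) t + (GX m r t).sh.toNat := rfl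
    have htn1 : (GX m r t).sh.toNat ≤ 1 := Bool.toNat_le _
    constructor
    · -- the guess
      generalize hb : t / (m * m) = b at *
      generalize hjj : t % (m * m) = j at *
      have hGt : GX m r t = gx m r b j := by
        unfold GX
        rw [hb, hjj]
      rw [hGt]
      by_cases h0 : t = 0
      · rw [if_pos h0]
        have h1 : b = 0 := by rw [← hb, h0, Nat.zero_div]
        have h2 : j = 0 := by rw [← hjj, h0, Nat.zero_mod]
        rw [h1, h2]
        exact first_gx m r
      · rw [if_neg h0]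
        rcases j with _ | j
        · -- start of a block
          obtain ⟨b', rfl⟩ : ∃ b', b = b' + 1 := by
            rcases b with _ | b'
            · exfalso
              rw [Nat.mul_zero] at hdm
              omega
            · exact ⟨b', rfl⟩
          have h1 : t - 1 = m * m * b' + (m * m - 1) := by
            have : m * m * (b' + 1) = m * m * b' + m * m := by ring
            omega
          have h2 : GX m r (t - 1) = gx m r b' (m * m - 1) := by
            rw [h1]
            exact GX_add hm0 r b' _ (by omega)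
          rw [h2]
          have h3 := locd_gx m r b' (m * m) hr hN
          split_ifs
          · exact Or.inr h3
          · exact ⟨rfl, h3⟩
        · have h1 : t - 1 = m * m * b + j := by omega
          have h2 : GX m r (t - 1) = gx m r b j := by
            rw [h1]
            exact GX_add hm0 r b _ (by omega)
          rw [h2]
          rcases b with _ | b
          · rw [Nat.mul_zero, Nat.zero_add] at hdm
            rw [if_pos (by omega)]
            left
            rw [← hdm]
            exact ini_gx m r j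
          · have h3 := loc_gx m r b j
            split_ifs
            · exact Or.inr h3
            · exact ⟨rfl, h3⟩
    · by_cases h1 : t < m * m
      · rw [if_pos h1]
        left
        refine ⟨?_, ?_, rfl, rfl⟩
        · show decide (t / (m * m) = 0) = true
          rw [Nat.div_eq_of_lt h1]
          rfl
        · have h2 : t / m < m := (Nat.div_lt_iff_lt_mul hm0).2 h1
          omega
      · rw [if_neg h1]
        right
        refine ⟨t - m * m, by omega, ?_, ?_, rfl, ?_⟩
        · have h3 := cn_of hm0 (GX m r) (t - m * m) (fun s _ => GX_sh m r s)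
          have h4 : t / m = (t - m * m) / m + m := by
            have h5 : t = (t - m * m) + m * m := by omega
            conv_lhs => rw [h5]
            rw [Nat.add_mul_div_left _ _ hm0]
          omega
        · have h3 : t / (m * m) = (t - m * m) / (m * m) + 1 := by
            have h5 : t = (t - m * m) + m * m := by omega
            conv_lhs => rw [h5]
            rw [Nat.add_div_right _ hN]
          have h4 : t % (m * m) = (t - m * m) % (m * m) := by
            have h5 : t = (t - m * m) + m * m := by omega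
            conv_lhs => rw [h5]
            rw [Nat.add_mod_right]
          unfold GX
          rw [h3, h4]
          exact pk_gx m r _ _
        · have h3 : t + 1 - (t - m * m) = 1 + m * m := by omega
          rw [h3, Nat.add_mul_mod_self_left, Nat.mod_eq_of_lt (by omega)]
  · have h2 : m * m * T = m * m * (T - 1) + m * m := by
      obtain ⟨k, rfl⟩ : ∃ k, T = k + 1 := ⟨T - 1, by omega⟩
      rw [Nat.add_sub_cancel]
      ring
    have h1 : m * m * T - 1 = m * m * (T - 1) + (m * m - 1) := by omega
    have hacc : Acc (GX m r (m * m * T - 1)) := by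
      rw [h1, GX_add hm0 r _ _ (by omega)]
      refine ⟨end_gx m r _ _ hr hN, ?_⟩
      show decide (val r (T - 1) % 2 ^ (m * m - 1 + 1) ≠ 0) = true
      rw [Nat.sub_add_cancel (by omega), Nat.mod_eq_of_lt (lt_of_le_of_lt (val_le _ _) hr),
        decide_eq_true_iff, val_ne_zero_iff, Nat.sub_add_cancel (by omega)]
      exact hd
    dsimp only
    rw [if_neg (by omega)]
    split_ifs
    · exact hacc
    · exact ⟨rfl, hacc⟩

/-- The language on the words whose length is a multiple of `m * m`. -/
theorem mem_iff {strict : Prop} (hm : 2 ≤ m) (T : ℕ) :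
    List.replicate (m * m * T) () ∈ (witU m).language strict ↔
      0 < T ∧ ∃ r, r < 2 ^ (m * m) ∧ ¬ (r + 1) ∣ T := by
  rw [mem_witU hm]
  constructor
  · rintro ⟨γ, σ, h1, h2⟩
    obtain ⟨h3, h4⟩ := con_of hm h1 h2
    have hT : 0 < T := Nat.pos_of_mul_pos_left h3
    refine ⟨hT, ?_⟩
    obtain ⟨r, hr, h5⟩ := blocks hm h4
    refine ⟨r, hr, ?_⟩
    have hN : 0 < m * m := Nat.mul_pos (by omega) (by omega)
    have h6 := h5 (T - 1) (by omega) (m * m - 1) (by omega)
    have h7 := h4.last (m * m * (T - 1) + (m * m - 1)) (by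
      obtain ⟨k, rfl⟩ : ∃ k, T = k + 1 := ⟨T - 1, by omega⟩
      rw [Nat.add_sub_cancel]
      have : m * m * (k + 1) = m * m * k + m * m := by ring
      omega)
    rw [h6] at h7
    have h8 : decide (val r (T - 1) % 2 ^ (m * m - 1 + 1) ≠ 0) = true := h7.2
    rw [Nat.sub_add_cancel (by omega), Nat.mod_eq_of_lt (lt_of_le_of_lt (val_le _ _) hr),
      decide_eq_true_iff, val_ne_zero_iff, Nat.sub_add_cancel (by omega)] at h8
    exact h8
  · rintro ⟨hT, r, hr, hd⟩
    exact chain_of hm hr hT hd

end Pool.Agent.H542.UN
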