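import Mathlib
import Pool.Agent.H542.UN.Chain

set_option autoImplicit false

/-! Every deterministic machine equivalent to the witness is large. -/

namespace Pool.Agent.H542.UN

open Relation Pool.Agent.H630R2.LA

/-- The least common multiple of the numbers `1, ..., n`. -/
def Lam (n : ℕ) : ℕ := (Finset.Icc 1 n).lcm id

theorem Lam_ne_zero (n : ℕ) : Lam n ≠ 0 := by
  unfold Lam
  rw [Ne, Finset.lcm_eq_zero_iff]
  simp

theorem dvd_Lam {n k : ℕ} (h1 : 0 < k) (h2 : k ≤ n) : k ∣ Lam n :=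
  Finset.dvd_lcm (f := id) (Finset.mem_Icc.2 ⟨h1, h2⟩)

theorem Lam_dvd {n T : ℕ} (h : ∀ k, 0 < k → k ≤ n → k ∣ T) : Lam n ∣ T := by
  refine Finset.lcm_dvd ?_
  intro k hk
  rw [Finset.mem_Icc] at hk
  exact h k hk.1 hk.2

theorem choose_dvd_Lam {n k : ℕ} (hn : 0 < n) (hk : k ≤ n) : n.choose k ∣ Lam n := by
  rw [← Nat.factorization_prime_le_iff_dvd (Nat.choose_pos hk).ne' (Lam_ne_zero n)]
  intro p hp
  rw [← hp.pow_dvd_iff_le_factorization (Lam_ne_zero n)]
  exact dvd_Lam (Nat.pow_pos hp.pos) (Nat.pow_factorization_choose_le hn)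

theorem Lam_large (N : ℕ) (hN : 0 < N) : 2 ^ 2 ^ (N - 1) ≤ Lam (2 ^ N) := by
  obtain ⟨K, rfl⟩ : ∃ K, N = K + 1 := ⟨N - 1, by omega⟩
  rw [Nat.add_sub_cancel]
  have hk : 0 < 2 ^ K := Nat.two_pow_pos K
  have h1 := Nat.four_pow_le_two_mul_self_mul_centralBinom (2 ^ K) hk
  have h2 : Nat.centralBinom (2 ^ K) ≤ Lam (2 ^ (K + 1)) := by
    refine Nat.le_of_dvd (Nat.pos_of_ne_zero (Lam_ne_zero _)) ?_
    have h3 : 2 ^ (K + 1) = 2 * 2 ^ K := by ring
    rw [h3]
    exact choose_dvd_Lam (by omega) (by omega)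
  have h3 : 2 * 2 ^ K = 2 ^ (K + 1) := by ring
  have h4 : (4 : ℕ) ^ 2 ^ K = 2 ^ 2 ^ K * 2 ^ 2 ^ K := by
    rw [show (4 : ℕ) = 2 * 2 by norm_num, Nat.mul_pow]
  have h5 : 2 ^ (K + 1) ≤ 2 ^ 2 ^ K := Nat.pow_le_pow_right (by norm_num) Nat.lt_two_pow_self
  rw [h3, h4] at h1
  have h6 : 2 ^ 2 ^ K * 2 ^ 2 ^ K ≤ 2 ^ 2 ^ K * Nat.centralBinom (2 ^ K) :=
    h1.trans (Nat.mul_le_mul_right _ h5)
  exact (Nat.le_of_mul_le_mul_left h6 (Nat.two_pow_pos _)).trans h2

/-- Every deterministic machine equivalent to the witness has many states. -/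
theorem lowerQ {m : ℕ} (hm : 2 ≤ m) (strict : Prop) (M : LimAut Unit) (hd : M.Deterministic)
    (hM : M.language strict = (witU m).language strict) :
    2 ^ (m * m - 1) ≤ Nat.card M.Q * Nat.card M.Q + Nat.card M.Q := by
  have hN : 0 < m * m := Nat.mul_pos (by omega) (by omega)
  have hcard : Nat.card (Set (Fin (2 ^ (m * m - 1)))) = 2 ^ 2 ^ (m * m - 1) := by
    have h1 : Nat.card (Set (Fin (2 ^ (m * m - 1)))) =
      Nat.card (Fin (2 ^ (m * m - 1)) → Prop) := rfl
    rw [h1, Nat.card_fun]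
    simp
  let e : Set (Fin (2 ^ (m * m - 1))) ≃ Fin (2 ^ 2 ^ (m * m - 1)) := Finite.equivFinOfCardEq hcard
  have hlt : ∀ G, (e G).val < Lam (2 ^ (m * m)) := fun G =>
    lt_of_lt_of_le (e G).isLt (Lam_large _ hN)
  have hmain : Nat.card (Fin (2 ^ (m * m - 1))) ≤ Nat.card M.Q * Nat.card M.Q + Nat.card M.Q := by
    refine card_le_of_distinguished (strict := strict) hd
      (fun G => List.replicate (m * m * (e G).val) ()) ?_
    intro G G' hne
    have hij : (e G).val ≠ (e G').val := fun h => hne (e.injective (Fin.ext h))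
    have hi := hlt G
    have hj := hlt G'
    generalize (e G).val = i at *
    generalize (e G').val = j at *
    generalize hΛ : Lam (2 ^ (m * m)) = Λ at *
    refine ⟨List.replicate (m * m * (Λ - i)) (), ?_⟩
    rw [List.replicate_append_replicate, List.replicate_append_replicate, ← Nat.mul_add,
      ← Nat.mul_add, hM, mem_iff hm, mem_iff hm]
    have h1 : i + (Λ - i) = Λ := by omega
    rw [h1]
    intro h
    have h2 : ¬ (0 < Λ ∧ ∃ r, r < 2 ^ (m * m) ∧ ¬ (r + 1) ∣ Λ) := by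
      rintro ⟨_, r, hr, hd⟩
      apply hd
      rw [← hΛ]
      exact dvd_Lam (Nat.succ_pos r) hr
    apply h2
    rw [h]
    refine ⟨by omega, ?_⟩
    by_contra hcon
    push Not at hcon
    have h3 : Λ ∣ j + (Λ - i) := by
      rw [← hΛ]
      refine Lam_dvd ?_
      intro k hk1 hk2
      have := hcon (k - 1) (by omega)
      rw [Nat.sub_add_cancel hk1] at this
      rw [hΛ]
      exact this
    obtain ⟨c, hc⟩ := h3
    rcases c with _ | _ | c
    · omega
    · omega
    · have h4 : Λ * 2 ≤ Λ * (c + 1 + 1) := Nat.mul_le_mul_left _ (by omega)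
      omega
  simpa using hmain

/-- Every deterministic machine equivalent to the witness is large. -/
theorem lowerS {m : ℕ} (hm : 2 ≤ m) (strict : Prop) (M : LimAut Unit) (hd : M.Deterministic)
    (hM : M.language strict = (witU m).language strict) : 2 ^ (m * m - 1) ≤ M.size ^ 2 := by
  have h1 := lowerQ hm strict M hd hM
  have h3 : Nat.card M.Q + 3 ≤ M.size := by
    unfold LimAut.size
    omega
  have h4 : (Nat.card M.Q + 3) ^ 2 ≤ M.size ^ 2 := Nat.pow_le_pow_left h3 2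
  nlinarith

end Pool.Agent.H542.UN
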