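import Mathlib

set_option autoImplicit false

/-! Walks in finite digraphs: the eventual periodicity of their lengths. -/

namespace Pool.Agent.H542.UN

/-- There is a walk of length `n` from `x` to `y`. -/
def Walk {X : Type} (E : X → X → Prop) : ℕ → X → X → Prop
  | 0, x, y => x = y
  | n + 1, x, y => ∃ z, E x z ∧ Walk E n z y

variable {X : Type} {E : X → X → Prop}

theorem walk_add (a b : ℕ) (x y : X) :
    Walk E (a + b) x y ↔ ∃ z, Walk E a x z ∧ Walk E b z y := by
  induction a generalizing x with
  | zero => simp [Walk]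
  | succ a ih =>
    have h1 : a + 1 + b = (a + b) + 1 := by omega
    rw [h1]
    simp only [Walk]
    constructor
    · rintro ⟨z, h2, h3⟩
      obtain ⟨w, h4, h5⟩ := (ih z).1 h3
      exact ⟨w, ⟨z, h2, h4⟩, h5⟩
    · rintro ⟨w, ⟨z, h2, h4⟩, h5⟩
      exact ⟨z, h2, (ih z).2 ⟨w, h4, h5⟩⟩

theorem walk_fun (n : ℕ) (x y : X) (h : Walk E n x y) :
    ∃ f : ℕ → X, f 0 = x ∧ f n = y ∧ ∀ i, i < n → E (f i) (f (i + 1)) := by
  induction n generalizing x with
  | zero =>
    have h' : x = y := h
    exact ⟨fun _ => x, rfl, h', fun i hi => absurd hi (by omega)⟩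
  | succ n ih =>
    obtain ⟨z, h1, h2⟩ := h
    obtain ⟨f, h3, h4, h5⟩ := ih z h2
    refine ⟨fun i => if i = 0 then x else f (i - 1), rfl, ?_, ?_⟩
    · dsimp only
      rw [if_neg (by omega), Nat.add_sub_cancel]
      exact h4
    · intro i hi
      dsimp only
      rcases i with _ | i
      · rw [if_pos rfl, if_neg (by omega), Nat.add_sub_cancel, h3]
        exact h1
      · rw [if_neg (by omega), if_neg (by omega), Nat.add_sub_cancel, Nat.add_sub_cancel]
        exact h5 i (by omega)

theorem fun_walk (f : ℕ → X) (i k n : ℕ) (hk : i + k ≤ n)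
    (h : ∀ i, i < n → E (f i) (f (i + 1))) : Walk E k (f i) (f (i + k)) := by
  induction k generalizing i with
  | zero => rfl
  | succ k ih =>
    refine ⟨f (i + 1), h i (by omega), ?_⟩
    have h1 := ih (i + 1) (by omega)
    have h2 : i + 1 + k = i + (k + 1) := by omega
    rw [h2] at h1
    exact h1

theorem walk_shorten [Finite X] (b : ℕ) (hb : 0 < b) (x y : X) (n : ℕ) :
    Walk E n x y → ∃ n', n' < Nat.card X * b ∧ n' ≤ n ∧ n' % b = n % b ∧ Walk E n' x y := by
  have := Fintype.ofFinite X
  induction n using Nat.strong_induction_on with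
  | _ n ih =>
    intro h
    rcases Nat.lt_or_ge n (Nat.card X * b) with hn | hn
    · exact ⟨n, hn, le_rfl, rfl, h⟩
    · obtain ⟨f, h1, h2, h3⟩ := walk_fun n x y h
      obtain ⟨s, t, hst, heq⟩ : ∃ s t : Fin (Nat.card X * b + 1), s ≠ t ∧
          ((f s.val, (⟨s.val % b, Nat.mod_lt _ hb⟩ : Fin b)) : X × Fin b) =
            (f t.val, ⟨t.val % b, Nat.mod_lt _ hb⟩) := by
        apply Fintype.exists_ne_map_eq_of_card_lt
        rw [Fintype.card_prod, Fintype.card_fin, Fintype.card_fin, Nat.card_eq_fintype_card]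
        omega
      simp only [Prod.mk.injEq, Fin.mk.injEq] at heq
      obtain ⟨h4, h5⟩ := heq
      -- order the two times
      obtain ⟨u, v, huv, hv, h6, h7⟩ : ∃ u v, u < v ∧ v ≤ Nat.card X * b ∧ f u = f v ∧
          u % b = v % b := by
        have hs := s.isLt
        have ht := t.isLt
        rcases Nat.lt_trichotomy s.val t.val with h6 | h6 | h6
        · exact ⟨s.val, t.val, h6, by omega, h4, h5⟩
        · exact absurd (Fin.ext h6) hst
        · exact ⟨t.val, s.val, h6, by omega, h4.symm, h5.symm⟩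
      have h8 : Walk E u x (f u) := by
        have := fun_walk f 0 u n (by omega) h3
        rw [h1, Nat.zero_add] at this
        exact this
      have h9 : Walk E (n - v) (f v) y := by
        have := fun_walk f v (n - v) n (by omega) h3
        rw [show v + (n - v) = n by omega, h2] at this
        exact this
      have h10 : Walk E (u + (n - v)) x y := by
        rw [walk_add]
        exact ⟨f u, h8, by rw [h6]; exact h9⟩
      obtain ⟨n', h11, h12, h13, h14⟩ := ih (u + (n - v)) (by omega) h10
      refine ⟨n', h11, by omega, ?_, h14⟩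
      rw [h13]
      have h15 : n = (n - v) + v := by omega
      conv_rhs => rw [h15]
      rw [Nat.add_mod (n - v) v, ← h7, ← Nat.add_mod, Nat.add_comm]

/-- a closed walk can be repeated -/
theorem walk_loop {x : X} {b : ℕ} (h : Walk E b x x) (k : ℕ) : Walk E (b * k) x x := by
  induction k with
  | zero => rfl
  | succ k ih =>
    rw [Nat.mul_succ, walk_add]
    exact ⟨x, ih, h⟩

/-- **Periodicity.** A long walk can be replaced by walks of all large lengths in some residue
class. -/
theorem walk_period [Finite X] (x y : X) (n : ℕ) (hn : 2 * Nat.card X ^ 2 ≤ n)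
    (h : Walk E n x y) : ∃ b, 0 < b ∧ b ≤ Nat.card X ∧
      ∀ n', 2 * Nat.card X ^ 2 ≤ n' → n' % b = n % b → Walk E n' x y := by
  have := Fintype.ofFinite X
  have hr : 0 < Nat.card X := by
    have : Nonempty X := ⟨x⟩
    exact Nat.card_pos
  obtain ⟨f, h1, h2, h3⟩ := walk_fun n x y h
  have hrn : Nat.card X ≤ n := by nlinarith
  obtain ⟨s, t, hst, heq⟩ : ∃ s t : Fin (Nat.card X + 1), s ≠ t ∧ f s.val = f t.val := by
    apply Fintype.exists_ne_map_eq_of_card_lt
    rw [Fintype.card_fin, Nat.card_eq_fintype_card]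
    omega
  obtain ⟨u, v, huv, hv, h6⟩ : ∃ u v, u < v ∧ v ≤ Nat.card X ∧ f u = f v := by
    have hs := s.isLt
    have ht := t.isLt
    rcases Nat.lt_trichotomy s.val t.val with h6 | h6 | h6
    · exact ⟨s.val, t.val, h6, by omega, heq⟩
    · exact absurd (Fin.ext h6) hst
    · exact ⟨t.val, s.val, h6, by omega, heq.symm⟩
  have hb : 0 < v - u := by omega
  have hloop : Walk E (v - u) (f u) (f u) := by
    have := fun_walk f u (v - u) n (by omega) h3
    rw [show u + (v - u) = v by omega, ← h6] at this
    exact this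
  have h8 : Walk E u x (f u) := by
    have := fun_walk f 0 u n (by omega) h3
    rw [h1, Nat.zero_add] at this
    exact this
  have h9 : Walk E (n - u) (f u) y := by
    have := fun_walk f u (n - u) n (by omega) h3
    rw [show u + (n - u) = n by omega, h2] at this
    exact this
  obtain ⟨a, ha1, _, ha2, ha3⟩ := walk_shorten (v - u) hb x (f u) u h8
  obtain ⟨c, hc1, _, hc2, hc3⟩ := walk_shorten (v - u) hb (f u) y (n - u) h9
  refine ⟨v - u, hb, by omega, ?_⟩
  intro n' hn' hmod
  have hle : Nat.card X * (v - u) ≤ Nat.card X ^ 2 := by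
    rw [sq]
    exact Nat.mul_le_mul_left _ (by omega)
  have h10 : (a + c) % (v - u) = n' % (v - u) := by
    rw [hmod, Nat.add_mod, ha2, hc2, ← Nat.add_mod]
    congr 1
    omega
  obtain ⟨k, hk⟩ : (v - u) ∣ n' - (a + c) := by
    exact (Nat.modEq_iff_dvd' (by omega)).1 h10
  have h11 : n' = (a + (v - u) * k) + c := by omega
  rw [h11, walk_add]
  exact ⟨f u, (walk_add _ _ _ _).2 ⟨f u, ha3, walk_loop hloop k⟩, hc3⟩

end Pool.Agent.H542.UN
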