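import Mathlib
import Pool.Agent.H542.UN.Walk
import Pool.Agent.H542.UN.Low

set_option autoImplicit false

/-! Small deterministic machines for unary languages given by residue classes. -/

namespace Pool.Agent.H542.UN

open Relation Pool.Agent.H630R2.LA

/-- Modes. -/
inductive Tq : Type
  | Z | Lf | Rt | Fi
  deriving DecidableEq, Fintype

/-- The moves: first the length is counted up to the threshold `K`; if it is larger, then the
residues modulo `1, ..., R` are computed one after the other. -/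
inductive Tv (K R : ℕ) (A0 : ℕ → Prop) (P : ℕ → ℕ → Prop) :
    Tq → ℕ → ℕ → Sym Unit → Tq → ℕ → ℕ → Bool → Prop
  | zgo (i : ℕ) (h : i < K) : Tv K R A0 P .Z i 0 (.sym ()) .Z (i + 1) 0 true
  | zstay : Tv K R A0 P .Z K 0 (.sym ()) .Z K 0 true
  | zacc (i : ℕ) (h : i < K) (ha : A0 i) : Tv K R A0 P .Z i 0 .rm .Fi 0 0 true
  | zend : Tv K R A0 P .Z K 0 .rm .Lf 0 1 false
  | lgo (b : ℕ) : Tv K R A0 P .Lf 0 b (.sym ()) .Lf 0 b false
  | lend (b : ℕ) : Tv K R A0 P .Lf 0 b .lm .Rt 0 b true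
  | rgo (c b : ℕ) : Tv K R A0 P .Rt c b (.sym ()) .Rt ((c + 1) % b) b true
  | racc (c b : ℕ) (h : P b c) : Tv K R A0 P .Rt c b .rm .Fi 0 0 true
  | rnext (c b : ℕ) (h : ¬ P b c) : Tv K R A0 P .Rt c b .rm .Lf 0 (b + 1) false

variable {K R : ℕ} {A0 : ℕ → Prop} {P : ℕ → ℕ → Prop} {strict : Prop}

theorem Tv_unique {g : Tq} {i j : ℕ} {σ : Sym Unit} {g1 g2 : Tq} {i1 i2 j1 j2 : ℕ}
    {d1 d2 : Bool} (h1 : Tv K R A0 P g i j σ g1 i1 j1 d1) (h2 : Tv K R A0 P g i j σ g2 i2 j2 d2) :
    g1 = g2 ∧ i1 = i2 ∧ j1 = j2 ∧ d1 = d2 := by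
  cases h1 <;> cases h2 <;> first
    | exact ⟨rfl, rfl, rfl, rfl⟩
    | (exfalso; simp_all)
    | (exfalso; omega)

/-- States. -/
abbrev SQ (K R : ℕ) : Type := Tq × Fin (K + R + 1) × Fin (R + 1)

/-- The machine. -/
def swp (K R : ℕ) (A0 : ℕ → Prop) (P : ℕ → ℕ → Prop) : LimAut Unit where
  Q := SQ K R
  W := Unit
  finQ := inferInstance
  finW := inferInstance
  inp := id
  inp_inj := Function.injective_id
  δ := fun p σ => {x | Tv K R A0 P p.1 p.2.1.val p.2.2.val σ x.1.1 x.1.2.1.val x.1.2.2.val x.2.2}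
  q0 := (.Z, 0, 0)
  F := {(.Fi, 0, 0)}

theorem swp_det : (swp K R A0 P).Deterministic := by
  rintro q σ ⟨q1, b1, d1⟩ h1 ⟨q2, b2, d2⟩ h2
  obtain ⟨h3, h4, h5, h6⟩ := Tv_unique (show Tv K R A0 P q.1 q.2.1.val q.2.2.val σ q1.1
    q1.2.1.val q1.2.2.val d1 from h1) (show Tv K R A0 P q.1 q.2.1.val q.2.2.val σ q2.1
    q2.2.1.val q2.2.2.val d2 from h2)
  have h7 : q1 = q2 := Prod.ext h3 (Prod.ext (Fin.ext h4) (Fin.ext h5))
  rw [h7, h6]
  rfl

theorem card_SQ (K R : ℕ) : Nat.card (SQ K R) = 4 * ((K + R + 1) * (R + 1)) := by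
  rw [Nat.card_prod, Nat.card_prod, Nat.card_fin, Nat.card_fin, Nat.card_eq_fintype_card]
  rfl

theorem size_swp : (swp K R A0 P).size ≤ 64 * ((K + R + 1) * (R + 1)) + 6 := by
  have h1 := numTrans_le (swp K R A0 P) swp_det
  have h2 : Nat.card (swp K R A0 P).Q = 4 * ((K + R + 1) * (R + 1)) := card_SQ K R
  have h3 : Nat.card (swp K R A0 P).W = 1 := by
    show Nat.card Unit = 1
    simp
  have h4 : (swp K R A0 P).F.ncard = 1 := Set.ncard_singleton _
  have h5 : Nat.card Unit = 1 := by simp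
  rw [h2, h3] at h1
  unfold LimAut.size
  rw [h2, h3, h4, h5]
  omega

theorem fzv_iff (p r : SQ K R) (σ : Sym Unit) (d : Bool) :
    fz strict (swp K R A0 P) p σ r d ↔
      Tv K R A0 P p.1 p.2.1.val p.2.2.val σ r.1 r.2.1.val r.2.2.val d := by
  constructor
  · rintro ⟨b, h1, _⟩
    exact h1
  · intro h
    refine ⟨(), h, fun _ => ?_⟩
    rcases σ with _ | _ | ⟨⟨⟩⟩ <;> rfl

/-- The table of the prefix of length `n`. -/
def TV (strict : Prop) (K R : ℕ) (A0 : ℕ → Prop) (P : ℕ → ℕ → Prop) : ℕ → Set (SQ K R × SQ K R)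
  | 0 => ext strict (swp K R A0 P) (∅ : Set (SQ K R × SQ K R)) .lm
  | n + 1 => ext strict (swp K R A0 P) (TV strict K R A0 P n) (.sym ())

theorem mem_TV (n : ℕ) : ∀ (b : Fin (R + 1)) (s : SQ K R),
    ((((.Lf, 0, b) : SQ K R), s) ∈ TV strict K R A0 P n) → 0 < b.val →
      s.1 = .Rt ∧ s.2.1.val = n % b.val ∧ s.2.2 = b := by
  induction n with
  | zero =>
    rintro b ⟨s1, s2, s3⟩ ⟨t, h1, h2⟩ hb
    have h1' : ReflTransGen (fun y z => ∃ r, fz strict (swp K R A0 P) y .lm r false ∧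
      (r, z) ∈ (∅ : Set (SQ K R × SQ K R))) ((.Lf, 0, b) : SQ K R) t := h1
    rcases ReflTransGen.cases_head h1' with h3 | ⟨z, ⟨t, _, h4⟩, _⟩
    · subst h3
      have h4 : Tv K R A0 P .Lf 0 b.val .lm s1 s2.val s3.val true := (fzv_iff _ _ _ _).1 h2
      dsimp only
      generalize hs2 : s2.val = x2 at h4 ⊢
      generalize hs3 : s3.val = x3 at h4
      generalize hbb : b.val = b' at h4 ⊢
      cases h4
      exact ⟨rfl, by rw [Nat.zero_mod], Fin.ext (by rw [hs3, hbb])⟩
    · exact absurd h4 (Set.notMem_empty _)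
  | succ n ih =>
    rintro b ⟨s1, s2, s3⟩ ⟨t, h1, h2⟩ hb
    have h1' : ReflTransGen (fun y z => ∃ r, fz strict (swp K R A0 P) y (.sym ()) r false ∧
      (r, z) ∈ TV strict K R A0 P n) ((.Lf, 0, b) : SQ K R) t := h1
    rcases ReflTransGen.cases_head h1' with h3 | ⟨z, ⟨q, h4, h5⟩, h6⟩
    · exfalso
      subst h3
      have h4 : Tv K R A0 P .Lf 0 b.val (.sym ()) s1 s2.val s3.val true := (fzv_iff _ _ _ _).1 h2
      generalize s2.val = x2 at h4
      generalize s3.val = x3 at h4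
      generalize b.val = x4 at h4
      cases h4
    · obtain ⟨q1, q2, q3⟩ := q
      have h7 : Tv K R A0 P .Lf 0 b.val (.sym ()) q1 q2.val q3.val false := (fzv_iff _ _ _ _).1 h4
      have h8 : ((q1, q2, q3) : SQ K R) = (.Lf, 0, b) := by
        generalize hq2 : q2.val = x2 at h7
        generalize hq3 : q3.val = x3 at h7
        generalize hbb : b.val = b' at h7
        cases h7
        exact Prod.ext rfl (Prod.ext (Fin.ext hq2) (Fin.ext (by rw [hq3, hbb])))
      rw [h8] at h5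
      obtain ⟨h9, h10, h11⟩ := ih b z h5 hb
      obtain ⟨z1, z2, z3⟩ := z
      dsimp only at h9 h10 h11
      subst h9
      subst h11
      have hzt : ((.Rt, z2, z3) : SQ K R) = t := by
        rcases ReflTransGen.cases_head h6 with h11 | ⟨z', ⟨t', h12, _⟩, _⟩
        · exact h11
        · exfalso
          have h13 : Tv K R A0 P .Rt z2.val z3.val (.sym ()) t'.1 t'.2.1.val t'.2.2.val false :=
            (fzv_iff _ _ _ _).1 h12
          generalize t'.1 = y1 at h13
          generalize t'.2.1.val = y2 at h13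
          generalize t'.2.2.val = y3 at h13
          cases h13
      subst hzt
      have h14 : Tv K R A0 P .Rt z2.val z3.val (.sym ()) s1 s2.val s3.val true :=
        (fzv_iff _ _ _ _).1 h2
      dsimp only
      rw [h10] at h14
      generalize hs2 : s2.val = x2 at h14 ⊢
      generalize hs3 : s3.val = x3 at h14
      generalize hzz : z3.val = z' at h14 ⊢
      cases h14
      exact ⟨rfl, by rw [Nat.mod_add_mod], Fin.ext (by rw [hs3, hzz])⟩

theorem mod_lt_KR {n b : ℕ} (hb : 0 < b) (hbR : b ≤ R) : n % b < K + R + 1 := by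
  have := Nat.mod_lt n hb
  omega

/-- The state with which the machine returns. -/
def rt (K : ℕ) {R : ℕ} (n : ℕ) (b : Fin (R + 1)) (hb : 0 < b.val) : SQ K R :=
  (.Rt, ⟨n % b.val, mod_lt_KR hb (Nat.lt_succ_iff.1 b.isLt)⟩, b)

theorem TV_mem (n : ℕ) (b : Fin (R + 1)) (hb : 0 < b.val) :
    (((.Lf, 0, b) : SQ K R), rt K n b hb) ∈ TV strict K R A0 P n := by
  induction n with
  | zero =>
    refine ⟨(.Lf, 0, b), ReflTransGen.refl, (fzv_iff _ _ _ _).2 ?_⟩
    show Tv K R A0 P .Lf 0 b.val .lm .Rt (0 % b.val) b.val true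
    rw [Nat.zero_mod]
    exact Tv.lend _
  | succ n ih =>
    refine ⟨rt K n b hb, ReflTransGen.single ⟨(.Lf, 0, b), (fzv_iff _ _ _ _).2 (Tv.lgo _), ih⟩,
      (fzv_iff _ _ _ _).2 ?_⟩
    show Tv K R A0 P .Rt (n % b.val) b.val (.sym ()) .Rt ((n + 1) % b.val) b.val true
    rw [← Nat.mod_add_mod]
    exact Tv.rgo _ _

/-- The last phase. -/
theorem last_iff (n : ℕ) (b : Fin (R + 1)) (hb : 0 < b.val) :
    (rt K n b hb, ((.Fi, 0, 0) : SQ K R)) ∈ ext strict (swp K R A0 P) (TV strict K R A0 P n) .rm ↔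
      ∃ b', b.val ≤ b' ∧ b' ≤ R ∧ P b' (n % b') := by
  constructor
  · rintro ⟨t, h1, h2⟩
    have h1' : ReflTransGen (fun y z => ∃ r, fz strict (swp K R A0 P) y .rm r false ∧
      (r, z) ∈ TV strict K R A0 P n) (rt K n b hb) t := h1
    have key : ∀ x, ReflTransGen (fun y z => ∃ r, fz strict (swp K R A0 P) y .rm r false ∧
        (r, z) ∈ TV strict K R A0 P n) x t → ∀ (b : Fin (R + 1)) (hb : 0 < b.val),
        x = rt K n b hb → ∃ b', b.val ≤ b' ∧ b' ≤ R ∧ P b' (n % b') := by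
      intro x hx
      induction hx using ReflTransGen.head_induction_on with
      | refl =>
        intro b hb hxb
        have h3 : Tv K R A0 P t.1 t.2.1.val t.2.2.val .rm .Fi 0 0 true := (fzv_iff _ _ _ _).1 h2
        rw [hxb] at h3
        have h4 : Tv K R A0 P .Rt (n % b.val) b.val .rm .Fi 0 0 true := h3
        cases h4 with
        | racc c b h => exact ⟨_, le_rfl, Nat.lt_succ_iff.1 (Fin.isLt _), h⟩
      | head h3 h3' ih =>
        rename_i y z
        intro b hb hxb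
        obtain ⟨r, h4, h5⟩ := h3
        have h6 : Tv K R A0 P y.1 y.2.1.val y.2.2.val .rm r.1 r.2.1.val r.2.2.val false :=
          (fzv_iff _ _ _ _).1 h4
        rw [hxb] at h6
        have h7 : Tv K R A0 P .Rt (n % b.val) b.val .rm r.1 r.2.1.val r.2.2.val false := h6
        obtain ⟨r1, r2, r3⟩ := r
        dsimp only at h7
        have h8 : r1 = .Lf ∧ r2.val = 0 ∧ r3.val = b.val + 1 := by
          generalize r2.val = x2 at h7 ⊢
          generalize r3.val = x3 at h7 ⊢
          cases h7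
          exact ⟨rfl, rfl, rfl⟩
        obtain ⟨rfl, h9, h10⟩ := h8
        have h11 : r2 = 0 := Fin.ext h9
        subst h11
        obtain ⟨h12, h13, h14⟩ := mem_TV n r3 z h5 (by omega)
        obtain ⟨z1, z2, z3⟩ := z
        dsimp only at h12 h13 h14
        subst h12
        subst h14
        obtain ⟨b', h15, h16, h17⟩ := ih z3 (by omega)
          (Prod.ext rfl (Prod.ext (Fin.ext h13) rfl))
        exact ⟨b', by omega, h16, h17⟩
    exact key _ h1' b hb rfl
  · rintro ⟨b', h1, h2, h3⟩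
    obtain ⟨k, hk⟩ : ∃ k, b' = b.val + k := ⟨b' - b.val, by omega⟩
    induction k generalizing b with
    | zero =>
      refine ⟨rt K n b hb, ReflTransGen.refl, (fzv_iff _ _ _ _).2 ?_⟩
      show Tv K R A0 P .Rt (n % b.val) b.val .rm .Fi 0 0 true
      rw [hk, Nat.add_zero] at h3
      exact Tv.racc _ _ h3
    | succ k ih =>
      by_cases hP : P b.val (n % b.val)
      · refine ⟨rt K n b hb, ReflTransGen.refl, (fzv_iff _ _ _ _).2 ?_⟩
        show Tv K R A0 P .Rt (n % b.val) b.val .rm .Fi 0 0 true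
        exact Tv.racc _ _ hP
      · have hlt : b.val + 1 < R + 1 := by omega
        obtain ⟨s, h4, h5⟩ := ih ⟨b.val + 1, hlt⟩ (Nat.succ_pos _) (by
          show b.val + 1 ≤ b'
          omega) (by
          show b' = b.val + 1 + k
          omega)
        refine ⟨s, ReflTransGen.head ⟨(.Lf, 0, ⟨b.val + 1, hlt⟩), (fzv_iff _ _ _ _).2 ?_,
          TV_mem n ⟨b.val + 1, hlt⟩ (Nat.succ_pos _)⟩ h4, h5⟩
        exact Tv.rnext _ _ hP

theorem min_lt_KR (n : ℕ) : min n K < K + R + 1 := by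
  have := Nat.min_le_right n K
  omega

theorem runs_swp (n : ℕ) (y : Set (SQ K R × SQ K R) × SQ K R) :
    runs strict (swp K R A0 P) (List.replicate n ()) (x0 strict (swp K R A0 P)) y ↔
      y = (TV strict K R A0 P n, ((.Z, ⟨min n K, min_lt_KR n⟩, 0) : SQ K R)) := by
  induction n generalizing y with
  | zero =>
    constructor
    · intro h
      have h' : x0 strict (swp K R A0 P) = y := h
      rw [← h']
      refine Prod.ext rfl (Prod.ext rfl (Prod.ext (Fin.ext ?_) rfl))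
      show 0 = min 0 K
      simp
    · rintro rfl
      show x0 strict (swp K R A0 P) = _
      refine Prod.ext rfl (Prod.ext rfl (Prod.ext (Fin.ext ?_) rfl))
      show 0 = min 0 K
      simp
  | succ n ih =>
    rw [List.replicate_succ', runs_append]
    have hstep : ∀ y : Set (SQ K R × SQ K R) × SQ K R,
        nstep strict (swp K R A0 P) (.sym ()) (TV strict K R A0 P n,
          ((.Z, ⟨min n K, min_lt_KR n⟩, 0) : SQ K R)) y ↔
        y = (TV strict K R A0 P (n + 1), ((.Z, ⟨min (n + 1) K, min_lt_KR (n + 1)⟩, 0) : SQ K R)) := by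
      intro y
      have hmove : Tv K R A0 P .Z (min n K) 0 (.sym ()) .Z (min (n + 1) K) 0 true := by
        rcases Nat.lt_or_ge n K with h | h
        · rw [Nat.min_eq_left h.le, Nat.min_eq_left h]
          exact Tv.zgo n h
        · rw [Nat.min_eq_right h, Nat.min_eq_right (by omega)]
          exact Tv.zstay
      constructor
      · rintro ⟨q, b, d, hδ, h1, h2, h3⟩
        have hδ' : Tv K R A0 P .Z (min n K) 0 (.sym ()) q.1 q.2.1.val q.2.2.val d := hδ
        obtain ⟨h4, h5, h6, h7⟩ := Tv_unique hmove hδ'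
        refine Prod.ext h1 ?_
        rw [h2 h7.symm]
        exact (Prod.ext h4 (Prod.ext (Fin.ext h5) (Fin.ext h6))).symm
      · rintro rfl
        exact ⟨(.Z, ⟨min (n + 1) K, min_lt_KR (n + 1)⟩, 0), (), true, hmove, rfl, fun _ => rfl,
          fun h => absurd h (by simp)⟩
    constructor
    · rintro ⟨z, h1, z', h2, h3⟩
      have h3' : z' = y := h3
      subst h3'
      rw [ih z] at h1
      subst h1
      exact (hstep z').1 h2
    · intro h
      exact ⟨_, (ih _).2 rfl, y, (hstep y).2 h, rfl⟩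

theorem mem_swp (hR : 0 < R) (n : ℕ) :
    List.replicate n () ∈ (swp K R A0 P).language strict ↔
      (n < K ∧ A0 n) ∨ (K ≤ n ∧ ∃ b, 0 < b ∧ b ≤ R ∧ P b (n % b)) := by
  rw [mem_language_runs]
  have h0 : (∃ y, runs strict (swp K R A0 P) (List.replicate n ()) (x0 strict (swp K R A0 P)) y ∧
      finX strict (swp K R A0 P) y) ↔ finX strict (swp K R A0 P) (TV strict K R A0 P n,
        ((.Z, ⟨min n K, min_lt_KR n⟩, 0) : SQ K R)) := by
    constructor
    · rintro ⟨y, h1, h2⟩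
      rw [runs_swp n y] at h1
      subst h1
      exact h2
    · intro h
      exact ⟨_, (runs_swp n _).2 rfl, h⟩
  rw [h0]
  rcases Nat.lt_or_ge n K with hn | hn
  · constructor
    · rintro ⟨z, ⟨q, b, d, hδ, h1, h2, h3⟩, hz⟩
      left
      refine ⟨hn, ?_⟩
      have hδ' : Tv K R A0 P .Z (min n K) 0 .rm q.1 q.2.1.val q.2.2.val d := hδ
      rw [Nat.min_eq_left hn.le] at hδ'
      generalize q.1 = y1 at hδ'
      generalize q.2.1.val = y2 at hδ'
      generalize q.2.2.val = y3 at hδ'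
      cases hδ' with
      | zacc i h ha => exact ha
      | zend => exact absurd hn (lt_irrefl _)
    · rintro (⟨_, ha⟩ | ⟨h1, _⟩)
      · refine ⟨(ext strict (swp K R A0 P) (TV strict K R A0 P n) .rm, (.Fi, 0, 0)),
          ⟨(.Fi, 0, 0), (), true, ?_, rfl, fun _ => rfl, fun h => absurd h (by simp)⟩, rfl⟩
        show Tv K R A0 P .Z (min n K) 0 .rm .Fi 0 0 true
        rw [Nat.min_eq_left hn.le]
        exact Tv.zacc n hn ha
      · omega
  · have h1R : 1 < R + 1 := by omega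
    have hlast := last_iff (K := K) (A0 := A0) (P := P) (strict := strict) n ⟨1, h1R⟩ Nat.one_pos
    constructor
    · rintro ⟨z, ⟨q, b, d, hδ, h1, h2, h3⟩, hz⟩
      right
      refine ⟨hn, ?_⟩
      have hδ' : Tv K R A0 P .Z (min n K) 0 .rm q.1 q.2.1.val q.2.2.val d := hδ
      rw [Nat.min_eq_right hn] at hδ'
      have hq : q = ((.Lf, 0, ⟨1, h1R⟩) : SQ K R) ∧ d = false := by
        obtain ⟨q1, q2, q3⟩ := q
        dsimp only at hδ'
        generalize hq2 : q2.val = x2 at hδ'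
        generalize hq3 : q3.val = x3 at hδ'
        cases hδ' with
        | zacc i h ha => exact absurd h (lt_irrefl _)
        | zend => exact ⟨Prod.ext rfl (Prod.ext (Fin.ext hq2) (Fin.ext hq3)), rfl⟩
      obtain ⟨rfl, rfl⟩ := hq
      obtain ⟨s, h4, h5⟩ := h3 rfl
      have hz' : z.2 = ((.Fi, 0, 0) : SQ K R) := hz
      obtain ⟨h6, h7, h8⟩ := mem_TV n ⟨1, h1R⟩ s h4 Nat.one_pos
      have h9 : s = rt K n ⟨1, h1R⟩ Nat.one_pos := Prod.ext h6 (Prod.ext (Fin.ext h7) h8)
      rw [h1, hz', h9] at h5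
      obtain ⟨b', h10, h11, h12⟩ := hlast.1 h5
      exact ⟨b', h10, h11, h12⟩
    · rintro (⟨h1, _⟩ | ⟨_, b', h1, h2, h3⟩)
      · omega
      · refine ⟨(ext strict (swp K R A0 P) (TV strict K R A0 P n) .rm, (.Fi, 0, 0)),
          ⟨(.Lf, 0, ⟨1, h1R⟩), (), false, ?_, rfl, fun h => absurd h (by simp), fun _ =>
            ⟨rt K n ⟨1, h1R⟩ Nat.one_pos, TV_mem n _ _, hlast.2 ⟨b', h1, h2, h3⟩⟩⟩, rfl⟩
        show Tv K R A0 P .Z (min n K) 0 .rm .Lf 0 1 false
        rw [Nat.min_eq_right hn]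
        exact Tv.zend

theorem runs_walk {M : LimAut Unit} (n : ℕ) (x y : Set (M.Q × M.Q) × M.Q) :
    runs strict M (List.replicate n ()) x y ↔
      Walk (fun a b => nstep strict M (.sym (M.inp ())) a b) n x y := by
  induction n generalizing x with
  | zero => exact Iff.rfl
  | succ n ih =>
    rw [List.replicate_succ]
    constructor
    · rintro ⟨z, h1, h2⟩
      exact ⟨z, h1, (ih z).1 h2⟩
    · rintro ⟨z, h1, h2⟩
      exact ⟨z, h1, (ih z).2 h2⟩

theorem unit_replicate (w : List Unit) : w = List.replicate w.length () :=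
  List.eq_replicate_iff.2 ⟨rfl, fun _ _ => rfl⟩

/-- **Upper bound.** Every unary 1-limited automaton with `q` states has an equivalent
deterministic one, which never rewrites, of size at most `2 ^ (3 * q ^ 2 + 3 * q + 10)`. -/
theorem upperU (M : LimAut Unit) (strict : Prop) :
    ∃ M' : LimAut Unit, M'.Deterministic ∧ Nat.card M'.W = 1 ∧
      M'.language strict = M.language strict ∧
      M'.size ≤ 2 ^ (3 * Nat.card M.Q ^ 2 + 3 * Nat.card M.Q + 10) := by
  classical
  have := M.finQ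
  set r := Nat.card (Set (M.Q × M.Q) × M.Q) with hr
  have hr0 : 0 < r := by
    have : Nonempty (Set (M.Q × M.Q) × M.Q) := ⟨(∅, M.q0)⟩
    exact Nat.card_pos
  refine ⟨swp (2 * r ^ 2) r (fun n => List.replicate n () ∈ M.language strict)
    (fun b c => ∀ n', 2 * r ^ 2 ≤ n' → n' % b = c → List.replicate n' () ∈ M.language strict),
    swp_det, ?_, ?_, ?_⟩
  · show Nat.card Unit = 1
    simp
  · ext w
    rw [unit_replicate w]
    generalize w.length = n
    rw [mem_swp hr0]
    constructor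
    · rintro (⟨_, h⟩ | ⟨h1, b, _, _, h2⟩)
      · exact h
      · exact h2 n h1 rfl
    · intro h
      rcases Nat.lt_or_ge n (2 * r ^ 2) with hn | hn
      · exact Or.inl ⟨hn, h⟩
      · right
        refine ⟨hn, ?_⟩
        obtain ⟨y, h1, h2⟩ := (mem_language_runs _).1 h
        rw [runs_walk] at h1
        obtain ⟨b, hb, hbr, h3⟩ := walk_period _ _ n hn h1
        refine ⟨b, hb, hbr, ?_⟩
        intro n' hn' hmod
        rw [mem_language_runs]
        exact ⟨y, (runs_walk _ _ _).2 (h3 n' hn' hmod), h2⟩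
  · refine (size_swp).trans ?_
    have h1 : r ≤ 2 ^ (Nat.card M.Q ^ 2 + Nat.card M.Q) := by
      rw [hr, card_table, pow_add, sq]
      exact Nat.mul_le_mul_left _ (Nat.lt_two_pow_self).le
    have h2 : 64 * ((2 * r ^ 2 + r + 1) * (r + 1)) + 6 ≤ 2 ^ 10 * r ^ 3 := by
      obtain ⟨k, hk⟩ : ∃ k, r = k + 1 := ⟨r - 1, by omega⟩
      rw [hk]
      nlinarith [Nat.zero_le k, Nat.zero_le (k ^ 2), Nat.zero_le (k ^ 3)]
    refine h2.trans ?_
    calc 2 ^ 10 * r ^ 3 ≤ 2 ^ 10 * (2 ^ (Nat.card M.Q ^ 2 + Nat.card M.Q)) ^ 3 :=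
          Nat.mul_le_mul_left _ (Nat.pow_le_pow_left h1 3)
      _ = 2 ^ (3 * Nat.card M.Q ^ 2 + 3 * Nat.card M.Q + 10) := by
          rw [← pow_mul, ← pow_add]
          congr 1
          ring

end Pool.Agent.H542.UN
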